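import Pool.Agent.T6.H2.PT.IsoP
import Pool.Agent.T6.H2.PT.Ricci
import Pool.Agent.X32.Uni.Gold

set_option autoImplicit false

/-!
# The gaps between consecutive almost prime triples, quadruples, ...

Let `h_1, ..., h_k` be an admissible tuple, for example `0, 2, 6` or `0, 2, 6, 8`. We consider the `n` for which one
`n + h_i` is a prime, another `n + h_j` is a product of at most two primes, all the `n + h_l` are products of at most
`t` primes, all `> n ^ (1/t)`, and which are isolated on two scales: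

* every other integer at distance at most `ε log n` of `n` has a prime factor `≤ n ^ β`,
* there is no other `m` with `|m - n| ≤ ε (log n) ^ k` for which all the `m + h_l` are free of prime factors `≤ n ^ β`.

There are as many such `n` as expected, up to a constant factor, in every long interval.

For every set `S` of integers `n` such that the `n + h_l` are free of prime factors `≤ n ^ β` and such that `S` has
at least `δ X / (log X) ^ k` elements up to `X`, for arbitrarily large `X`, the set of the limit points of the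
normalised gaps `(s' - s) / (log s) ^ k`, `s < s'` consecutive in `S`, has positive Lebesgue measure: at least
`v = v(δ) > 0` in `[0, C]`. In particular this holds for one colour class of every finite colouring of the isolated
constellations above.
-/

namespace Pool.Agent.Results.MP_3efbeb_nt.ConstellationGaps

open Finset Filter MeasureTheory

/-- the tuple of shifts is admissible: no prime divides one of the numbers `n + h_l` for all `n` -/
def Admissible {k : ℕ} (h : Fin k → ℕ) : Prop := ∀ p : ℕ, p.Prime → ∃ n : ℕ, ∀ l, ¬ p ∣ n + h l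

/-- `v` is a product of at most `r` primes, all of them larger than `y` -/
def AlmostPrime (r : ℕ) (y : ℝ) (v : ℕ) : Prop :=
  1 < v ∧ v.primeFactorsList.length ≤ r ∧ ∀ q : ℕ, q.Prime → q ∣ v → y < q

/-- none of the `m + h_l` has a prime factor `≤ y` -/
def Rough {k : ℕ} (h : Fin k → ℕ) (y : ℝ) (m : ℤ) : Prop :=
  ∀ l, ∀ q : ℕ, q.Prime → (q : ℝ) ≤ y → ¬ (q : ℤ) ∣ m + h l

/-- the `n` such that `n + h_i` is a prime, `n + h_j` is a product of at most two primes `> n ^ (1/9)`, every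
`n + h_l` is a product of at most `t` primes `> n ^ (1/t)`, every integer `m` with `|m - n| ≤ ε log n` which is none
of the `n + h_l` has a prime factor `≤ n ^ β`, and for no integer `m ≠ n` with `|m - n| ≤ ε (log n) ^ k` all the
`m + h_l` are free of prime factors `≤ n ^ β` -/
def Good {k : ℕ} (h : Fin k → ℕ) (i j : Fin k) (t : ℕ) (β ε : ℝ) : Set ℕ :=
  {n : ℕ | (n + h i).Prime ∧ AlmostPrime 2 ((n : ℝ) ^ (1 / 9 : ℝ)) (n + h j) ∧
    (∀ l, AlmostPrime t ((n : ℝ) ^ (1 / (t : ℝ))) (n + h l)) ∧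
    (∀ m : ℤ, |(m : ℝ) - n| ≤ ε * Real.log n → (∀ l, m ≠ n + h l) →
      ∃ q : ℕ, q.Prime ∧ (q : ℝ) ≤ (n : ℝ) ^ β ∧ (q : ℤ) ∣ m) ∧
    ∀ m : ℤ, m ≠ n → |(m : ℝ) - n| ≤ ε * Real.log n ^ k → ¬ Rough h ((n : ℝ) ^ β) m}

open Classical in
/-- the number of the elements `n` of `S` with `A < n ≤ B` -/
noncomputable def count (S : Set ℕ) (A B : ℕ) : ℕ := ((Ioc A B).filter (fun n => n ∈ S)).card

/-- the set of the limit points of the normalised gaps `(s' - s) / (log s) ^ k`, where `s < s'` are consecutive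
elements of `S` -/
def LimitPoints (k : ℕ) (S : Set ℕ) : Set ℝ :=
  {u : ℝ | ∀ η : ℝ, 0 < η → ∀ N : ℕ, ∃ s ∈ S, ∃ s' ∈ S, N ≤ s ∧ s < s' ∧ (∀ m, s < m → m < s' → m ∉ S) ∧
    |((s' : ℝ) - s) / Real.log s ^ k - u| < η}

open Pool.Agent.X32.Uni Pool.Agent.T6.H2.PT

theorem limit_eq (k : ℕ) (S : Set ℕ) : LimitPoints k S = LimGap k S := by
  ext u
  unfold LimitPoints LimGap Consec
  constructor
  · intro h η hη N
    obtain ⟨s, h1, s', h2, h3, h4, h5, h6⟩ := h η hη N
    exact ⟨s, s', h3, ⟨h1, h2, h4, h5⟩, h6⟩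
  · intro h η hη N
    obtain ⟨s, s', h3, ⟨h1, h2, h4, h5⟩, h6⟩ := h η hη N
    exact ⟨s, h1, s', h2, h3, h4, h5, h6⟩

theorem one_ne (k : ℕ) : ∀ _l : Fin k, (1 : ℤ) ≠ 0 := fun _ => one_ne_zero

theorem det {k : ℕ} {h : Fin k → ℕ} (hinj : Function.Injective h) :
    ∀ l m : Fin k, l ≠ m → (1 : ℤ) * (h m : ℤ) - 1 * (h l : ℤ) ≠ 0 := by
  intro l m hlm he
  apply hlm
  apply hinj
  have : (h m : ℤ) = h l := by linarith
  exact_mod_cast this.symm

/-- the second part -/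
theorem gaps {k : ℕ} (hk : 1 ≤ k) (h : Fin k → ℕ) (hinj : Function.Injective h) (β : ℝ) (hβ : 0 < β) (δ : ℝ)
    (hδ : 0 < δ) : ∃ v : ℝ, 0 < v ∧ ∀ S : Set ℕ, (∃ N : ℕ, ∀ n ∈ S, N ≤ n → Rough h ((n : ℝ) ^ β) n) →
      (∃ᶠ X : ℕ in atTop, δ * X / Real.log X ^ k ≤ (count S 0 X : ℝ)) →
      ENNReal.ofReal v ≤ volume (LimitPoints k S ∩ Set.Icc 0 (16 / δ + 2)) := by
  classical
  obtain ⟨v, hv, H⟩ := ricci hk (fun _ => 1) (fun l => (h l : ℤ)) (one_ne k) (det hinj) β hβ δ hδ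
  refine ⟨v, hv, fun S h1 h2 => ?_⟩
  rw [limit_eq]
  apply H S
  · obtain ⟨N, hN⟩ := h1
    refine ⟨N, fun s hs hNs l p hp hy hd => ?_⟩
    have h3 : (p : ℤ) ∣ (s : ℤ) + h l := by
      have h4 : (1 : ℤ) * (s : ℤ) + (h l : ℤ) = (s : ℤ) + h l := by ring
      rw [h4] at hd
      exact hd
    exact hN s hs hNs l p hp hy h3
  · refine h2.mono fun X hX => hX.trans (le_of_eq ?_)
    unfold count
    congr 2

/-- **The first part.** -/
theorem dense {k : ℕ} (h : Fin k → ℕ) (hinj : Function.Injective h) (hadm : Admissible h) :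
    ∃ t : ℕ, 1 ≤ t ∧ ∃ κ : ℝ, 0 < κ ∧ ∀ β : ℝ, 0 < β → ∃ ε : ℝ, 0 < ε ∧ ∀ θ : ℝ, 0 < θ →
      ∃ X₀ : ℕ, ∀ X : ℕ, X₀ ≤ X → ∀ A B : ℕ, B ≤ X → θ * X ≤ (B : ℝ) - A → ∀ i j : Fin k, i ≠ j →
        κ * ((B : ℝ) - A) / Real.log X ^ k ≤ (count (Good h i j t β ε) A B : ℝ) := by
  classical
  rcases Nat.eq_zero_or_pos k with rfl | hk
  · refine ⟨1, le_rfl, 1, one_pos, fun β _ => ⟨1, one_pos, fun θ _ => ⟨0, fun X _ A B _ _ i => i.elim0⟩⟩⟩
  obtain ⟨t, ht, κ, hκ, HM⟩ := isoP k 1 hk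
  refine ⟨t, ht, κ * κ / 4, by positivity, fun β hβ => ?_⟩
  have ht0 : (0 : ℝ) < t := by exact_mod_cast ht
  obtain ⟨β₁, hβ₁⟩ : ∃ β₁ : ℝ, β₁ = min (β / 2) (1 / (t : ℝ)) := ⟨_, rfl⟩
  have hβ₁0 : 0 < β₁ := by rw [hβ₁]; exact lt_min (by positivity) (by positivity)
  have hβ₁1 : β₁ ≤ β / 2 := by rw [hβ₁]; exact min_le_left _ _
  have hβ₁2 : β₁ ≤ 1 / (t : ℝ) := by rw [hβ₁]; exact min_le_right _ _
  obtain ⟨M, hM⟩ : ∃ M : ℕ, M = ∑ l, h l + 1 := ⟨_, rfl⟩
  have hMl : ∀ l, h l ≤ M := by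
    intro l
    rw [hM]
    have := single_le_sum (f := h) (fun _ _ => Nat.zero_le _) (mem_univ l)
    omega
  obtain ⟨ε₁, hε₁, HM⟩ := HM (β / 2) M (by positivity)
  obtain ⟨K, hK, HF⟩ := far_count hk (fun _ => 1) (fun l => (h l : ℤ)) (one_ne k) (det hinj) β₁ hβ₁0
  obtain ⟨ε₂, hε₂⟩ : ∃ ε₂ : ℝ, ε₂ = κ * κ / (4 * K) := ⟨_, rfl⟩
  have hε₂0 : 0 < ε₂ := by rw [hε₂]; positivity
  have hε₂K : K * ε₂ = κ * κ / 4 := by rw [hε₂]; field_simp
  obtain ⟨X₁, HF⟩ := HF ε₂ hε₂0
  obtain ⟨ε, hε⟩ : ∃ ε : ℝ, ε = min (ε₁ / 2) ε₂ := ⟨_, rfl⟩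
  have hε0 : 0 < ε := by rw [hε]; exact lt_min (by positivity) hε₂0
  have hε1 : ε ≤ ε₁ / 2 := by rw [hε]; exact min_le_left _ _
  have hε2 : ε ≤ ε₂ := by rw [hε]; exact min_le_right _ _
  refine ⟨ε, hε0, fun θ hθ => ?_⟩
  obtain ⟨c, X₂, HM⟩ := HM 1 1 θ 1 le_rfl hθ one_pos
  have hlt : Tendsto (fun X : ℕ => Real.log (X : ℝ)) atTop atTop := Real.tendsto_log_atTop.comp tendsto_natCast_atTop_atTop
  obtain ⟨X₃, H3⟩ := eventually_atTop.1 ((tend_quarter.eventually_ge_atTop (2 / θ + 8 / (κ * κ * θ) + ε + 2)).and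
    ((log_le_quarter k).and ((hlt.eventually_ge_atTop (2 * M / ε₁)).and (log_le_quarter 1))))
  refine ⟨X₁ + X₂ + X₃ + 3, fun X hX A B hB hAB i j hij => ?_⟩
  obtain ⟨g1, g2, g3, g4⟩ := H3 X (by omega)
  have hX1 : (1 : ℝ) ≤ X := by exact_mod_cast (by omega : 1 ≤ X)
  have hX0 : (0 : ℝ) < X := by linarith
  have hlog : 0 < Real.log X := Real.log_pos (by exact_mod_cast (by omega : 1 < X))
  obtain ⟨L, hL⟩ : ∃ L : ℝ, L = Real.log X ^ k := ⟨_, rfl⟩
  have hL0 : 0 < L := by rw [hL]; positivity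
  have hBA0 : 0 ≤ (B : ℝ) - A := le_trans (by positivity) hAB
  obtain ⟨u, hu⟩ : ∃ u : ℝ, u = (X : ℝ) ^ (1 / 4 : ℝ) := ⟨_, rfl⟩
  rw [← hu, pow_one] at g4
  rw [← hu] at g1 g2
  have hu4 : u ^ 4 = X := by
    rw [hu, ← Real.rpow_natCast, ← Real.rpow_mul hX0.le]
    norm_num
  have hu2 : u ^ 2 = (X : ℝ) ^ (1 / 2 : ℝ) := by
    rw [hu, ← Real.rpow_natCast, ← Real.rpow_mul hX0.le]
    norm_num
  have hq1 : 0 ≤ 2 / θ := by positivity
  have hq2 : 0 ≤ 8 / (κ * κ * θ) := by positivity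
  have hu1 : 1 ≤ u := by linarith
  have huθ : 2 / θ ≤ u := by linarith
  have huκ : 8 / (κ * κ * θ) ≤ u := by linarith
  have huε : ε ≤ u := by linarith
  rw [div_le_iff₀ hθ] at huθ
  rw [div_le_iff₀ (by positivity)] at huκ
  have hu0 : 0 < u := by linarith
  have hhalf : (X : ℝ) ^ (1 / 2 : ℝ) ≤ (B : ℝ) - A := by
    refine le_trans ?_ hAB
    rw [← hu2, ← hu4]
    have e1 : 1 ≤ u ^ 2 * θ := by nlinarith
    calc u ^ 2 = u ^ 2 * 1 := (mul_one _).symm
      _ ≤ u ^ 2 * (u ^ 2 * θ) := mul_le_mul_of_nonneg_left e1 (by positivity)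
      _ = θ * u ^ 4 := by ring
  have S : SysL k 1 M X (fun _ => 1) (fun l => (h l : ℤ)) i j :=
    { a0 := fun _ => one_ne_zero
      aE := le_rfl
      aE' := le_rfl
      aK := fun _ => by
        rw [hM]
        push_cast
        have : (0 : ℤ) ≤ ∑ l, (h l : ℤ) := sum_nonneg fun _ _ => Int.natCast_nonneg _
        rw [abs_one]
        linarith
      bK := fun l => by
        have h1 : |(h l : ℤ)| ≤ M := by
          rw [Nat.abs_cast]
          exact_mod_cast hMl l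
        have h2 : (1 : ℤ) ≤ X := by exact_mod_cast (by omega : 1 ≤ X)
        have h3 : (0 : ℤ) ≤ M := Int.natCast_nonneg _
        nlinarith
      adm := by
        intro p hp
        obtain ⟨n, hn⟩ := hadm p hp
        refine ⟨n, fun l hd => hn l ?_⟩
        have hd' : (p : ℤ) ∣ 1 * (n : ℤ) + (h l : ℤ) := hd
        rw [one_mul] at hd'
        exact_mod_cast hd'
      ne := fun he => by
        have h2 := (Prod.ext_iff.1 he).2
        simp only at h2
        exact hij (hinj (by exact_mod_cast h2)).symm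
      ne' := fun he => by
        have h2 := (Prod.ext_iff.1 he).1
        simp only at h2
        norm_num at h2 }
  obtain ⟨r1, r2⟩ := HM X (by omega) _ _ _ _ S
  obtain ⟨r3, -⟩ := r2 A B hB hAB
  obtain ⟨Z, hZ⟩ : ∃ Z : Finset ℕ, Z = GoodI (fun _ => 1) (fun l => (h l : ℤ)) i j t X (ε₁ * Real.log X)
    ((X : ℝ) ^ (β / 2)) A B := ⟨_, rfl⟩
  obtain ⟨F, hF⟩ : ∃ F : Finset ℕ, F = FarBad (fun _ => 1) (fun l : Fin k => (h l : ℤ)) (ε₂ * Real.log X ^ k)
    ((X : ℝ) ^ β₁) A B := ⟨_, rfl⟩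
  obtain ⟨Y, hY⟩ : ∃ Y : ℕ, Y = ⌈u ^ 2⌉₊ := ⟨_, rfl⟩
  have hYge : u ^ 2 ≤ Y := by rw [hY]; exact Nat.le_ceil _
  have hYle : (Y : ℝ) ≤ 2 * u ^ 2 := by
    rw [hY]
    have e1 := Nat.ceil_lt_add_one (show 0 ≤ u ^ 2 by positivity)
    have e2 : 1 ≤ u ^ 2 := one_le_pow₀ hu1
    linarith
  have hZge : κ * κ * ((B : ℝ) - A) / L ≤ (Z.card : ℝ) := by
    rw [← hZ] at r3
    refine le_trans ?_ r3
    calc κ * κ * ((B : ℝ) - A) / L = κ * ((B : ℝ) - A) * (κ / L) := by ring
      _ ≤ _ := by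
        apply mul_le_mul_of_nonneg_left _ (by positivity)
        rw [hL]
        exact r1
  have hFle : (F.card : ℝ) ≤ κ * κ / 4 * ((B : ℝ) - A) / L := by
    have e1 := HF X (by omega) A B hB hhalf
    rw [← hF, hε₂K, ← hL] at e1
    exact e1
  have hYL : (Y : ℝ) ≤ κ * κ / 4 * ((B : ℝ) - A) / L := by
    rw [le_div_iff₀ hL0]
    have e1 : κ * κ / 4 * (θ * X) ≤ κ * κ / 4 * ((B : ℝ) - A) := mul_le_mul_of_nonneg_left hAB (by positivity)
    refine le_trans ?_ e1
    rw [← hL] at g2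
    calc (Y : ℝ) * L ≤ (2 * u ^ 2) * u := mul_le_mul hYle g2 hL0.le (by positivity)
      _ = u ^ 3 / 4 * 8 := by ring
      _ ≤ u ^ 3 / 4 * (u * (κ * κ * θ)) := mul_le_mul_of_nonneg_left huκ (by positivity)
      _ = κ * κ / 4 * (θ * u ^ 4) := by ring
      _ = κ * κ / 4 * (θ * X) := by rw [hu4]
  have hsub : (Z \ F) \ Ioc 0 Y ⊆ (Ioc A B).filter (fun n => n ∈ Good h i j t β ε) := by
    intro n hn
    rw [Finset.mem_sdiff, Finset.mem_sdiff] at hn
    obtain ⟨⟨hnZ, hnF⟩, hnY⟩ := hn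
    rw [hZ] at hnZ
    unfold GoodI GoodL at hnZ
    rw [mem_filter, mem_filter] at hnZ
    obtain ⟨⟨hn, h1, h2, h3⟩, hiso⟩ := hnZ
    rw [mem_filter]
    refine ⟨hn, ?_⟩
    rw [mem_Ioc] at hn
    have hYn : Y < n := by
      by_contra hcon
      exact hnY (mem_Ioc.2 ⟨by omega, by omega⟩)
    have hun : u ^ 2 ≤ n := hYge.trans (by exact_mod_cast hYn.le)
    have hn1 : (1 : ℝ) ≤ n := (one_le_pow₀ hu1).trans hun
    have hnX : (n : ℝ) ≤ X := by exact_mod_cast hn.2.trans hB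
    have hval : ∀ l, (1 : ℤ) * (n : ℤ) + (h l : ℤ) = ((n + h l : ℕ) : ℤ) := by
      intro l
      push_cast
      ring
    have hlogn : Real.log n ≤ Real.log X := Real.log_le_log (by linarith) hnX
    have hlogn0 : 0 ≤ Real.log n := Real.log_nonneg hn1
    have hpow : (X : ℝ) ^ (β / 2) ≤ (n : ℝ) ^ β := by
      calc (X : ℝ) ^ (β / 2) = (u ^ 2) ^ β := by
            rw [hu2, ← Real.rpow_mul hX0.le]
            congr 1
            ring
        _ ≤ (n : ℝ) ^ β := Real.rpow_le_rpow (by positivity) hun hβ.le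
    have hmono : ∀ (r : ℕ) (c : ℝ) (v : ℕ), 0 ≤ c → Almost r ((X : ℝ) ^ c) (v : ℤ) → AlmostPrime r ((n : ℝ) ^ c) v := by
      intro r c v hc hv
      rw [almostN_iff] at hv
      obtain ⟨e1, e2, e3⟩ := hv
      refine ⟨e1, e2, fun q hq hd => ?_⟩
      exact lt_of_le_of_lt (Real.rpow_le_rpow (by linarith) hnX hc) (e3 q hq hd)
    simp only [hval] at h1 h2 h3
    rw [Int.natAbs_natCast] at h1
    refine ⟨h1, hmono 2 _ _ (by norm_num) h2, fun l => hmono t _ _ (by positivity) (h3 l), ?_, ?_⟩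
    · intro m hm hml
      have e1 : |(m : ℝ) - n| ≤ ε₁ / 2 * Real.log X :=
        hm.trans (mul_le_mul hε1 hlogn hlogn0 (by positivity))
      have e2 : ε * Real.log n < n := by
        calc ε * Real.log n ≤ u * Real.log n := mul_le_mul_of_nonneg_right huε hlogn0
          _ ≤ u * u := mul_le_mul_of_nonneg_left (hlogn.trans g4) hu0.le
          _ = u ^ 2 := by ring
          _ ≤ Y := hYge
          _ < n := by exact_mod_cast hYn
      have hm0 : (0 : ℝ) < m := by
        have := (abs_le.1 hm).1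
        linarith
      have hm0' : 0 < m := by exact_mod_cast hm0
      obtain ⟨q, q1, q2, q3⟩ := hiso i m (by
        have e3 : (2 * M / ε₁) * (ε₁ / 2) ≤ Real.log X * (ε₁ / 2) := mul_le_mul_of_nonneg_right g3 (by positivity)
        have e4 : (2 * M / ε₁) * (ε₁ / 2) = M := by field_simp
        have e5 : (h i : ℝ) ≤ M := by exact_mod_cast hMl i
        have e6 : (0 : ℝ) ≤ h i := Nat.cast_nonneg _
        push_cast
        rw [abs_le] at e1 ⊢
        constructor <;> linarith [e1.1, e1.2]) (by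
        intro w
        refine ⟨fun he => hml w ?_, fun he => ?_⟩
        · rw [he]
          ring
        · have : (0 : ℤ) ≤ ((n + h w : ℕ) : ℤ) := Int.natCast_nonneg _
          rw [hval] at he
          omega)
      exact ⟨q, q1, q2.trans hpow, q3⟩
    · intro m hmn hm hrough
      apply hnF
      rw [hF]
      unfold FarBad
      rw [mem_filter, mem_Ioc]
      refine ⟨hn, m - n, by omega, ?_, ?_, ?_⟩
      · push_cast
        refine hm.trans (mul_le_mul hε2 (pow_le_pow_left₀ hlogn0 hlogn k) (by positivity) hε₂0.le)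
      · intro l p hp hy hd
        rw [hval] at hd
        have e1 := (h3 l).2.2 p hp hd
        have e2 : (X : ℝ) ^ β₁ ≤ (X : ℝ) ^ (1 / (t : ℝ)) := Real.rpow_le_rpow_of_exponent_le hX1 hβ₁2
        linarith
      · intro l p hp hy hd
        have e1 : (p : ℤ) ∣ m + h l := by
          have e2 : (1 : ℤ) * ((n : ℤ) + (m - n)) + (h l : ℤ) = m + h l := by ring
          rw [e2] at hd
          exact hd
        have e2 : (X : ℝ) ^ β₁ ≤ (X : ℝ) ^ (β / 2) := Real.rpow_le_rpow_of_exponent_le hX1 hβ₁1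
        exact hrough l p hp (hy.trans (e2.trans hpow)) e1
  have hcard : (Z.card : ℝ) ≤ F.card + Y + (count (Good h i j t β ε) A B : ℝ) := by
    have e1 : Z ⊆ (F ∪ Ioc 0 Y) ∪ (Ioc A B).filter (fun n => n ∈ Good h i j t β ε) := by
      intro n hn
      rw [mem_union, mem_union]
      by_cases h1 : n ∈ F
      · exact Or.inl (Or.inl h1)
      by_cases h2 : n ∈ Ioc 0 Y
      · exact Or.inl (Or.inr h2)
      right
      apply hsub
      rw [Finset.mem_sdiff, Finset.mem_sdiff]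
      exact ⟨⟨hn, h1⟩, h2⟩
    have e2 := (card_le_card e1).trans ((card_union_le _ _).trans (Nat.add_le_add_right (card_union_le _ _) _))
    rw [Nat.card_Ioc, Nat.sub_zero] at e2
    unfold count
    exact_mod_cast e2
  rw [← hL]
  have e9 : κ * κ * ((B : ℝ) - A) / L = κ * κ / 4 * ((B : ℝ) - A) / L + κ * κ / 4 * ((B : ℝ) - A) / L +
    κ * κ / 4 * ((B : ℝ) - A) / L + κ * κ / 4 * ((B : ℝ) - A) / L := by ring
  have e10 : 0 ≤ κ * κ / 4 * ((B : ℝ) - A) / L := by positivity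
  linarith

theorem adm_small {k : ℕ} (h : Fin k → ℕ) (hk : k < 5) (h2 : ∀ l, 2 ∣ h l) (h3 : ∀ l, ¬ 3 ∣ 2 + h l) : Admissible h := by
  classical
  intro p hp
  rcases Nat.lt_or_ge p 5 with hlt | hge
  · have h4 : p = 2 ∨ p = 3 := by
      have := hp.two_le
      interval_cases p
      · exact Or.inl rfl
      · exact Or.inr rfl
      · exact absurd hp (by decide)
    rcases h4 with rfl | rfl
    · exact ⟨1, fun l hd => by have := h2 l; omega⟩
    · exact ⟨2, h3⟩
  · by_contra hcon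
    push Not at hcon
    choose g hg using hcon
    have hinj : Set.InjOn g (Finset.range p : Set ℕ) := by
      intro a ha b hb hab
      rw [Finset.mem_coe, Finset.mem_range] at ha hb
      have h5 := hg a
      have h6 := hg b
      rw [hab] at h5
      have h7 : a ≡ b [MOD p] := by
        have h8 : a + h (g b) ≡ b + h (g b) [MOD p] :=
          ((Nat.modEq_zero_iff_dvd.2 h5).trans (Nat.modEq_zero_iff_dvd.2 h6).symm)
        exact Nat.ModEq.add_right_cancel' _ h8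
      exact Nat.ModEq.eq_of_lt_of_lt h7 ha hb
    have h5 := Finset.card_le_card_of_injOn g (fun a _ => Finset.mem_univ (g a)) hinj
    rw [Finset.card_range, Finset.card_univ, Fintype.card_fin] at h5
    omega

theorem count_le {S : Set ℕ} {r : ℕ} (T : Fin r → Set ℕ) (hT : ∀ n ∈ S, ∃ c, n ∈ T c) (A B : ℕ) :
    count S A B ≤ ∑ c, count (T c) A B := by
  classical
  have h6 : (Ioc A B).filter (fun n => n ∈ S) ⊆ (univ : Finset (Fin r)).biUnion
      (fun c => (Ioc A B).filter (fun n => n ∈ T c)) := by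
    intro n hn
    rw [mem_filter] at hn
    rw [mem_biUnion]
    obtain ⟨c, hc⟩ := hT n hn.2
    exact ⟨c, mem_univ _, mem_filter.2 ⟨hn.1, hc⟩⟩
  unfold count
  exact (card_le_card h6).trans card_biUnion_le

/-- The tuples `(0, 2, 6)` and `(0, 2, 6, 8)` are admissible. Let `h` be an admissible tuple of `k` different shifts.
There are `t` and `κ > 0` such that for every `β > 0` there is `ε > 0` such that:

1. for all `θ > 0`, all large `X` and all intervals `(A, B]` with `B ≤ X`, `B - A ≥ θ X`, the interval contains, for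
   all `i ≠ j`, at least `κ (B - A) / log ^ k X` elements of `Good h i j t β ε`;
2. for every `δ > 0` there is `v > 0` such that for every set `S` of integers, the large ones of which are such that
   the `n + h_l` have no prime factors `≤ n ^ β`, if `S` has at least `δ X / log ^ k X` elements up to `X` for
   arbitrarily large `X`, then the set of the limit points of the normalised gaps between the consecutive elements of
   `S` which are in `[0, 16 / δ + 2]` has Lebesgue measure at least `v`;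
3. for every `r` there are `v, C > 0` such that for all `i ≠ j` and every colouring of the integers with `r` colours
   there is a colour such that the set of the limit points in `[0, C]` of the normalised gaps between the consecutive
   elements of `Good h i j t β ε` of this colour has Lebesgue measure at least `v`. -/
theorem result :
    (Admissible ![0, 2, 6] ∧ Admissible ![0, 2, 6, 8]) ∧
    ∀ (k : ℕ) (h : Fin k → ℕ), 1 ≤ k → Function.Injective h → Admissible h →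
    ∃ t : ℕ, 1 ≤ t ∧ ∃ κ : ℝ, 0 < κ ∧ ∀ β : ℝ, 0 < β → ∃ ε : ℝ, 0 < ε ∧
      (∀ θ : ℝ, 0 < θ → ∃ X₀ : ℕ, ∀ X : ℕ, X₀ ≤ X → ∀ A B : ℕ, B ≤ X → θ * X ≤ (B : ℝ) - A →
        ∀ i j : Fin k, i ≠ j → κ * ((B : ℝ) - A) / Real.log X ^ k ≤ (count (Good h i j t β ε) A B : ℝ)) ∧
      (∀ δ : ℝ, 0 < δ → ∃ v : ℝ, 0 < v ∧ ∀ S : Set ℕ, (∃ N : ℕ, ∀ n ∈ S, N ≤ n → Rough h ((n : ℝ) ^ β) n) →
        (∃ᶠ X : ℕ in atTop, δ * X / Real.log X ^ k ≤ (count S 0 X : ℝ)) →
        ENNReal.ofReal v ≤ volume (LimitPoints k S ∩ Set.Icc 0 (16 / δ + 2))) ∧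
      ∀ r : ℕ, ∃ v C : ℝ, 0 < v ∧ 0 < C ∧ ∀ i j : Fin k, i ≠ j → ∀ χ : ℕ → Fin r, ∃ c : Fin r,
        ENNReal.ofReal v ≤ volume (LimitPoints k {n | n ∈ Good h i j t β ε ∧ χ n = c} ∩ Set.Icc 0 C) := by
  classical
  refine ⟨⟨adm_small _ (by norm_num) (by decide) (by decide), adm_small _ (by norm_num) (by decide) (by decide)⟩, ?_⟩
  intro k h hk hinj hadm
  obtain ⟨t, ht, κ, hκ, H⟩ := dense h hinj hadm
  refine ⟨t, ht, κ, hκ, fun β hβ => ?_⟩
  obtain ⟨ε, hε, H⟩ := H β hβ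
  have ht0 : (0 : ℝ) < t := by exact_mod_cast ht
  refine ⟨ε, hε, H, fun δ hδ => gaps hk h hinj β hβ δ hδ, fun r => ?_⟩
  obtain ⟨δ, hδ⟩ : ∃ δ : ℝ, δ = κ / (r + 1) := ⟨_, rfl⟩
  have hδ0 : 0 < δ := by rw [hδ]; positivity
  obtain ⟨v, hv, G⟩ := gaps hk h hinj (1 / (t : ℝ)) (by positivity) δ hδ0
  refine ⟨v, 16 / δ + 2, hv, by positivity, fun i j hij χ => ?_⟩
  obtain ⟨X₀, H⟩ := H 1 one_pos
  have hfreq : ∃ c : Fin r, ∃ᶠ X : ℕ in atTop, δ * X / Real.log X ^ k ≤
      (count {n | n ∈ Good h i j t β ε ∧ χ n = c} 0 X : ℝ) := by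
    by_contra hcon
    push Not at hcon
    have h1 : ∀ᶠ X : ℕ in atTop, ∀ c : Fin r, ¬ (δ * X / Real.log X ^ k ≤
        (count {n | n ∈ Good h i j t β ε ∧ χ n = c} 0 X : ℝ)) := by
      rw [eventually_all]
      intro c
      exact (hcon c).mono fun X hX => not_le.2 hX
    obtain ⟨X, h2, h3⟩ := (h1.and (eventually_ge_atTop (X₀ + 3))).exists
    have hX0 : (0 : ℝ) < X := by exact_mod_cast (by omega : 0 < X)
    have hlog : 0 < Real.log X := Real.log_pos (by exact_mod_cast (by omega : 1 < X))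
    have h4 := H X (by omega) 0 X le_rfl (by simp) i j hij
    rw [Nat.cast_zero, sub_zero] at h4
    have h5 : (count (Good h i j t β ε) 0 X : ℝ) ≤ ∑ c : Fin r, (count {n | n ∈ Good h i j t β ε ∧ χ n = c} 0 X : ℝ) := by
      exact_mod_cast count_le (S := Good h i j t β ε) (fun c : Fin r => {n | n ∈ Good h i j t β ε ∧ χ n = c})
        (fun n hn => ⟨χ n, hn, rfl⟩) 0 X
    have h6 : ∑ c : Fin r, (count {n | n ∈ Good h i j t β ε ∧ χ n = c} 0 X : ℝ) ≤
        ∑ _c : Fin r, δ * X / Real.log X ^ k := sum_le_sum fun c _ => (lt_of_not_ge (h2 c)).le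
    rw [sum_const, card_univ, Fintype.card_fin, nsmul_eq_mul] at h6
    have h7 : (r : ℝ) * (δ * X / Real.log X ^ k) < κ * X / Real.log X ^ k := by
      rw [← mul_div_assoc]
      apply div_lt_div_of_pos_right _ (by positivity)
      rw [← mul_assoc]
      apply mul_lt_mul_of_pos_right _ hX0
      rw [hδ, mul_div_assoc', div_lt_iff₀ (by positivity)]
      nlinarith
    linarith
  obtain ⟨c, hc⟩ := hfreq
  refine ⟨c, G _ ⟨1, fun n hn hn1 l p hp hy hd => ?_⟩ hc⟩
  have h1 := (hn.1.2.2.1 l).2.2 p hp (by exact_mod_cast hd)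
  linarith

end Pool.Agent.Results.MP_3efbeb_nt.ConstellationGaps
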