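import Pool.Agent.T6.H56.EA.Cg

set_option autoImplicit false
set_option maxHeartbeats 1000000

/-! # Isolated constellations with a prime and a `P₂`, plus small elements of a dense set

Let `n + h_1, ..., n + h_K` be an admissible constellation, for instance `n, n + 2, n + 6` or
`n, n + 2, n + 6, n + 8`. We show a theorem of Romanoff's type: a positive proportion of all integers `n ≤ X` is of
the form `n = ν + m` where `m` belongs to an arbitrary given set of positive lower density, `m ≤ (log X) ^ A`, and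
`ν` is the first term of a progression of length `s` and of difference at most `(log X) ^ A`, whose terms `ν'` have
the same colour in a given colouring and belong to isolated constellations with a prime, a `P₂` and almost primes.
-/

namespace Pool.Agent.Results.MP_3efbeb_nt.DenseSummands

open Finset Filter

variable {K : ℕ}

/-- The local condition: for every prime `p` there is an `n` such that none of the `n + h l` is divisible by `p`. -/
def Local (h : Fin K → ℕ) : Prop := ∀ p : ℕ, p.Prime → ∃ n : ℕ, ∀ l, ¬ p ∣ n + h l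

/-- `ν + h i` is a prime, `ν + h j` has at most two prime factors, all the numbers `ν + h l > 1` have at most `t` prime
factors (counted with multiplicity), all of them larger than `ν ^ (1 / t)`, and every other integer `z` at distance at
most `ε log ν` from one of the numbers `ν + h l` has a prime factor `≤ ν ^ β`. -/
def Constellation (h : Fin K → ℕ) (i j : Fin K) (t : ℕ) (ε β : ℝ) (ν : ℕ) : Prop :=
  (ν + h i).Prime ∧ (ν + h j).primeFactorsList.length ≤ 2 ∧
    (∀ l, 1 < ν + h l ∧ (ν + h l).primeFactorsList.length ≤ t ∧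
      ∀ q : ℕ, q.Prime → q ∣ ν + h l → (ν : ℝ) ^ (1 / (t : ℝ)) < (q : ℝ)) ∧
    ∀ l, ∀ z : ℤ, |(z : ℝ) - ((ν + h l : ℕ) : ℝ)| ≤ ε * Real.log ν → (∀ u, z ≠ ((ν + h u : ℕ) : ℤ)) →
      ∃ q : ℕ, q.Prime ∧ (q : ℝ) ≤ (ν : ℝ) ^ β ∧ (q : ℤ) ∣ z

/-- The `n` with `X < n ≤ 18 X` of the form `n = ν + m`, `m ∈ M`, `1 ≤ m ≤ (log X) ^ A`, such that for some `d` with
`1 ≤ d ≤ (log X) ^ A` all the `ν' = ν, ν + d, ..., ν + (s - 1) d` give constellations and have the same colour. -/
def Sums (h : Fin K → ℕ) (i j : Fin K) (t : ℕ) (ε β : ℝ) (s A : ℕ) (M : Set ℕ) {q : ℕ} (χ : ℕ → Fin q) (X : ℕ) :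
    Set ℕ :=
  {n : ℕ | X < n ∧ n ≤ 18 * X ∧ ∃ ν m d : ℕ, 1 ≤ m ∧ 1 ≤ d ∧ ν + m = n ∧ m ∈ M ∧ (m : ℝ) ≤ Real.log X ^ A ∧
    (d : ℝ) ≤ Real.log X ^ A ∧ ∀ a < s, Constellation h i j t ε β (ν + a * d) ∧ χ (ν + a * d) = χ ν}

/-- The number of elements of `M` in `[1, T]`. -/
noncomputable def count (M : Set ℕ) (T : ℕ) : ℕ := (M ∩ Set.Icc 1 T).ncard

lemma count_eq (M : Set ℕ) (T : ℕ) : count M T = Pool.Agent.T6.H56.EA.cnt M T := by
  classical
  unfold count Pool.Agent.T6.H56.EA.cnt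
  rw [← Set.ncard_coe_finset]
  congr 1
  ext m
  simp only [Set.mem_inter_iff, Set.mem_Icc, coe_filter, mem_Icc, Set.mem_ofPred_eq]
  tauto

lemma sums_finite (h : Fin K → ℕ) (i j : Fin K) (t : ℕ) (ε β : ℝ) (s A : ℕ) (M : Set ℕ) {q : ℕ} (χ : ℕ → Fin q)
    (X : ℕ) : (Sums h i j t ε β s A M χ X).Finite :=
  (Set.finite_Iic (18 * X)).subset (fun _ hn => hn.2.1)

lemma local_of {K : ℕ} (h : Fin K → ℕ) (n1 n2 : ℕ) (h1 : ∀ l, (n1 + h l).Prime) (h2 : ∀ l, (n2 + h l).Prime)
    (h3 : ∀ l l', n1 + h l ≠ n2 + h l') : Local h := by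
  intro p hp
  by_cases hd : ∃ l, p ∣ n1 + h l
  · obtain ⟨l, hl⟩ := hd
    refine ⟨n2, fun l' hl' => h3 l l' ?_⟩
    rw [← (Nat.prime_dvd_prime_iff_eq hp (h1 l)).1 hl, ← (Nat.prime_dvd_prime_iff_eq hp (h2 l')).1 hl']
  · push Not at hd
    exact ⟨n1, hd⟩

/-- **Theorem.** For every `K` there is `t` with the following property. Let `h 0, ..., h (K - 1)` be different
shifts which satisfy the local condition, and `i ≠ j`. For every `β > 0` there is `ε > 0` such that for all `s ≥ 1`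
and `q` there is `A` such that for every set `M` of positive lower density there is `c > 0` such that for all large
`X` and every colouring `χ` of the natural numbers with `q` colours at least `c X` of the integers `n` with
`X < n ≤ 18 X` are in `Sums`. This applies to the shifts `0, 2, 6` and `0, 2, 6, 8`. -/
theorem result :
    (∀ K : ℕ, ∃ t : ℕ, 1 ≤ t ∧ ∀ (h : Fin K → ℕ) (i j : Fin K), Function.Injective h → i ≠ j → Local h →
      ∀ β : ℝ, 0 < β → ∃ ε : ℝ, 0 < ε ∧ ∀ s q : ℕ, 1 ≤ s → ∃ A : ℕ,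
      ∀ (M : Set ℕ) (η : ℝ), 0 < η → (∀ᶠ T : ℕ in atTop, η * T ≤ (count M T : ℝ)) →
      ∃ c : ℝ, 0 < c ∧ ∀ᶠ X : ℕ in atTop, ∀ χ : ℕ → Fin q,
        c * X ≤ ((Sums h i j t ε β s A M χ X).ncard : ℝ)) ∧
    Local ![0, 2, 6] ∧ Local ![0, 2, 6, 8] := by
  classical
  refine ⟨?_, ?_, ?_⟩
  · intro K
    by_cases hK : K = 0
    · subst hK
      exact ⟨1, le_rfl, fun h i => i.elim0⟩
    obtain ⟨t, ht, HT⟩ := Pool.Agent.T6.H56.EA.dense_summands K (by omega)
    refine ⟨t, ht, fun h i j hinj hij hL β hβ => ?_⟩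
    obtain ⟨ε, hε, HT⟩ := HT h i j hinj (fun he => hij (hinj he)) hL β hβ
    refine ⟨ε, hε, fun s q hs => ?_⟩
    obtain ⟨A, HT⟩ := HT s q hs
    refine ⟨A, fun M η hη hM => ?_⟩
    by_cases hq : q = 0
    · subst hq
      exact ⟨1, one_pos, Eventually.of_forall fun X χ => (χ 0).elim0⟩
    have hqne : Nonempty (ℕ → Fin q) := ⟨fun _ => ⟨0, Nat.pos_of_ne_zero hq⟩⟩
    -- the worst colouring for each `X`
    have hmin : ∀ X : ℕ, ∃ χ : ℕ → Fin q, ∀ χ' : ℕ → Fin q,
        (Sums h i j t ε β s A M χ X).ncard ≤ (Sums h i j t ε β s A M χ' X).ncard := by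
      intro X
      let f : (ℕ → Fin q) → ℕ := fun χ => (Sums h i j t ε β s A M χ X).ncard
      have hne : (Set.range f).Nonempty := Set.range_nonempty f
      obtain ⟨χ, hχ⟩ := Nat.sInf_mem hne
      refine ⟨χ, fun χ' => ?_⟩
      have h1 : sInf (Set.range f) ≤ f χ' := Nat.sInf_le ⟨χ', rfl⟩
      rw [← hχ] at h1
      exact h1
    choose χ hχ using hmin
    obtain ⟨c, hc, hX⟩ := HT M η hη (by
      filter_upwards [hM] with T hT
      rwa [← count_eq]) χ
    refine ⟨c, hc, ?_⟩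
    filter_upwards [hX] with X hX
    intro χ'
    refine hX.trans (le_trans ?_ (Nat.cast_le.2 (hχ X χ')))
    apply Nat.cast_le.2
    apply Set.ncard_le_ncard _ (sums_finite _ _ _ _ _ _ _ _ _ _ _)
    rintro n ⟨h1, h2, ν, m, h3, h4, h5, h6, d, h7, h8, h9⟩
    exact ⟨h1, h2, ν, m, d, h3, h7, h4, h5, h6, h8, h9⟩
  · apply local_of ![0, 2, 6] 5 17
    · decide
    · decide
    · decide
  · apply local_of ![0, 2, 6, 8] 5 101
    · intro l
      fin_cases l <;> norm_num
    · intro l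
      fin_cases l <;> norm_num
    · decide

end Pool.Agent.Results.MP_3efbeb_nt.DenseSummands
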