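import Pool.Agent.T6.H2.PT.IsoG
import Pool.Agent.X32.Uni.Box
import Pool.Agent.X32.Uni.Gold
import Pool.Agent.Y879.NP.Top

set_option autoImplicit false

/-!
# Isolated clusters of many primes among almost primes

Let `S` be an admissible set of shifts with `|S| ≥ n₀`. We count the `n` in `(X, 3 X]` for which

* every `n + s`, `s ∈ S`, is a product of at most `t` primes, all `> X ^ (1/t)`,
* at least `c log |S|` of the `n + s` are primes (three or four primes, if `|S|` is large enough),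
* the cluster is isolated: every integer `z` at distance at most `ε log X` of one of the multiples
  `± n, ± 2 n, ..., ± J n` of `n`, other than the `± (n + s)`, has a prime factor `≤ X ^ β`. In particular the primes
  at distance at most `ε log X` of `n` are exactly the primes among the `n + s`. Here `β > 0` and `J` are arbitrary.

Their number has the order of magnitude `X / (log X) ^ |S|`, the same as the number of all the `n` for which no
`n + s` has a prime factor `≤ X ^ β`; and for every colouring of the integers almost all of them are covered by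
pairwise disjoint monochromatic arithmetic progressions of length `l` with differences at most a power of `log X`,
along which the positions of the primes in the cluster do not change.
-/

namespace Pool.Agent.Results.MP_3efbeb_nt.IsolatedClusters

open Finset Filter
open Pool.Agent.X32.Uni Pool.Agent.T6.H2.PT

/-- the set of shifts is admissible: no prime divides one of the numbers `n + s` for all `n` -/
def Admissible (S : Finset ℕ) : Prop := ∀ p : ℕ, p.Prime → ∃ n : ℕ, ∀ s ∈ S, ¬ p ∣ n + s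

/-- `v` is a product of at most `r` primes, all of them larger than `y` -/
def AlmostPrime (r : ℕ) (y : ℝ) (v : ℕ) : Prop :=
  1 < v ∧ v.primeFactorsList.length ≤ r ∧ ∀ q : ℕ, q.Prime → q ∣ v → y < q

open Classical in
/-- the `n` in `(X, 3 X]` such that every `n + s`, `s ∈ S`, is a product of at most `t` primes `> X ^ (1/t)`, at least
`m` of the `n + s` are primes, and every integer `z` with `|z - j n| ≤ w` for some integer `j` with `1 ≤ |j| ≤ J`
which is none of the `± (n + s)` has a prime factor `≤ y` -/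
noncomputable def Good (S : Finset ℕ) (m : ℝ) (t J X : ℕ) (w y : ℝ) : Finset ℕ :=
  (Ioc X (3 * X)).filter (fun n : ℕ => (∀ s ∈ S, AlmostPrime t ((X : ℝ) ^ (1 / (t : ℝ))) (n + s)) ∧
    m ≤ ((S.filter (fun s => (n + s).Prime)).card : ℝ) ∧
    ∀ j z : ℤ, j ≠ 0 → |j| ≤ J → |(z : ℝ) - j * n| ≤ w → (∀ s ∈ S, z ≠ n + s ∧ z ≠ -(n + s)) →
      ∃ q : ℕ, q.Prime ∧ (q : ℝ) ≤ y ∧ (q : ℤ) ∣ z)

open Classical in
/-- the `n` in `(X, 3 X]` such that no `n + s`, `s ∈ S`, has a prime factor `≤ y` -/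
noncomputable def Rough (S : Finset ℕ) (X : ℕ) (y : ℝ) : Finset ℕ :=
  (Ioc X (3 * X)).filter (fun n : ℕ => ∀ s ∈ S, ∀ q : ℕ, q.Prime → (q : ℝ) ≤ y → ¬ q ∣ n + s)

/-- the terms `a, a + b, ..., a + (l - 1) b` of the progression `z = (a, b)` -/
def terms (l : ℕ) (z : ℕ × ℕ) : Finset ℕ := (range l).image (fun i => z.1 + i * z.2)

/-- the shifts as a function -/
noncomputable def sh (S : Finset ℕ) : Fin S.card → ℤ := fun i => ((S.equivFin.symm i : ℕ) : ℤ)

theorem sh_inj (S : Finset ℕ) : Function.Injective (sh S) := by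
  intro i j h
  unfold sh at h
  exact S.equivFin.symm.injective (Subtype.ext (by exact_mod_cast h))

theorem sh_surj (S : Finset ℕ) {s : ℕ} (hs : s ∈ S) : ∃ i, sh S i = s := by
  refine ⟨S.equivFin ⟨s, hs⟩, ?_⟩
  unfold sh
  simp

theorem sh_mem (S : Finset ℕ) (i : Fin S.card) : ∃ s ∈ S, sh S i = s :=
  ⟨_, (S.equivFin.symm i).2, rfl⟩

theorem main : ∃ (c : ℝ) (n₀ : ℕ), 0 < c ∧ ∀ S : Finset ℕ, n₀ ≤ S.card → Admissible S →
    ∃ t : ℕ, 1 ≤ t ∧ ∃ κ : ℝ, 0 < κ ∧ ∀ (β : ℝ) (J : ℕ), 0 < β → ∃ ε K : ℝ, 0 < ε ∧ 0 < K ∧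
      ∀ (l r : ℕ) (δ : ℝ), 1 ≤ l → 0 < δ → ∃ C X₀ : ℕ, ∀ X : ℕ, X₀ ≤ X →
        κ * X / Real.log X ^ S.card ≤
          ((Good S (c * Real.log S.card) t J X (ε * Real.log X) ((X : ℝ) ^ β)).card : ℝ) ∧
        ((Rough S X ((X : ℝ) ^ β)).card : ℝ) ≤ K * X / Real.log X ^ S.card ∧
        ∀ χ : ℕ → Fin r, ∃ P : Finset (ℕ × ℕ),
          (∀ z ∈ P, 1 ≤ z.2 ∧ (z.2 : ℝ) ≤ Real.log X ^ C ∧ ∀ i < l,
            z.1 + i * z.2 ∈ Good S (c * Real.log S.card) t J X (ε * Real.log X) ((X : ℝ) ^ β) ∧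
            χ (z.1 + i * z.2) = χ z.1 ∧ ∀ s ∈ S, (z.1 + i * z.2 + s).Prime ↔ (z.1 + s).Prime) ∧
          (P : Set (ℕ × ℕ)).PairwiseDisjoint (terms l) ∧
          (((Good S (c * Real.log S.card) t J X (ε * Real.log X) ((X : ℝ) ^ β) \
            P.biUnion (terms l)).card : ℕ) : ℝ) ≤ δ * X / Real.log X ^ S.card := by
  classical
  obtain ⟨c, n₀, hc, HS⟩ := Pool.Agent.Y879.NP.sets
  refine ⟨c, n₀ + 1, hc, fun S hS hadm => ?_⟩
  obtain ⟨k, hk⟩ : ∃ k, k = S.card := ⟨_, rfl⟩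
  have hk1 : 1 ≤ k := by omega
  -- the base theorem
  obtain ⟨y, hy⟩ : ∃ y, y = S.sup id + 1 := ⟨_, rfl⟩
  have hSy : ∀ s ∈ S, s < y := by
    intro s hs
    rw [hy]
    have : s ≤ S.sup id := Finset.le_sup (f := id) hs
    omega
  have hSr : S ⊆ range y := fun s hs => mem_range.2 (hSy s hs)
  have hadm' : ∀ p : ℕ, ∃ n : ℕ, p.Prime → ∀ s ∈ S, ¬ p ∣ n + s := by
    intro p
    by_cases hp : p.Prime
    · obtain ⟨n, hn⟩ := hadm p hp
      exact ⟨n, fun _ => hn⟩
    · exact ⟨0, fun h => absurd h hp⟩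
  choose a ha using hadm'
  obtain ⟨δ₀, κ, hδ₀, hκ, HB⟩ := HS S y (by omega) hSr a (fun p hp _ => ha p hp)
  obtain ⟨r₀, HF⟩ := Pool.Agent.Y879.NP.few y δ₀ hδ₀
  obtain ⟨t₁, ht₁⟩ : ∃ t₁ : ℕ, 1 / δ₀ ≤ (t₁ : ℝ) := exists_nat_ge _
  obtain ⟨t, htd⟩ : ∃ t : ℕ, t = r₀ + t₁ + 2 := ⟨_, rfl⟩
  have ht : 1 ≤ t := by omega
  have ht0 : (0 : ℝ) < t := by exact_mod_cast ht
  have htδ : 1 / (t : ℝ) ≤ δ₀ := by
    rw [div_le_iff₀ ht0]
    rw [div_le_iff₀ hδ₀] at ht₁
    have : (t₁ : ℝ) ≤ t := by exact_mod_cast (by omega : t₁ ≤ t)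
    nlinarith
  -- the system
  have hshadm : AdmL (fun _ : Fin S.card => (1 : ℤ)) (sh S) := by
    intro p hp
    obtain ⟨n, hn⟩ := hadm p hp
    refine ⟨n, fun l hd => ?_⟩
    obtain ⟨s, hs, he⟩ := sh_mem S l
    rw [he, one_mul] at hd
    exact hn s hs (by exact_mod_cast hd)
  have hdet : ∀ l m : Fin S.card, l ≠ m → (1 : ℤ) * sh S m - 1 * sh S l ≠ 0 := by
    intro l m hlm he
    exact hlm (sh_inj S (by linarith))
  obtain ⟨CV, hCV, hup⟩ := VL_up' (fun _ : Fin S.card => (1 : ℤ)) (sh S) hshadm (fun _ => one_ne_zero) hdet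
  have hfv : ∀ (n : ℕ) (l : Fin S.card), ∃ s ∈ S, (1 : ℤ) * (n : ℤ) + sh S l = ((n + s : ℕ) : ℤ) := by
    intro n l
    obtain ⟨s, hs, he⟩ := sh_mem S l
    refine ⟨s, hs, ?_⟩
    rw [he]
    push_cast
    ring
  -- the lower bound of the product
  obtain ⟨K₀, hK₀, X₁, HU0⟩ := rough_lin S.card 1 (by omega) (1 / 2) (by norm_num) (1 / (2 * (t : ℝ))) (by positivity)
  refine ⟨t, ht, κ / 2, by positivity, fun β J hβ => ?_⟩
  -- the isolation
  obtain ⟨β', hβ'⟩ : ∃ β' : ℝ, β' = min (β / 2) (1 / (2 * (t : ℝ))) := ⟨_, rfl⟩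
  have hβ'0 : 0 < β' := by
    rw [hβ']
    exact lt_min (by positivity) (by positivity)
  have hβ'1 : 2 * β' ≤ β := by
    have := min_le_left (β / 2) (1 / (2 * (t : ℝ)))
    rw [← hβ'] at this
    linarith
  have hβ'2 : 2 * β' ≤ 1 / (t : ℝ) := by
    have := min_le_right (β / 2) (1 / (2 * (t : ℝ)))
    rw [← hβ'] at this
    have h2 : 2 * (1 / (2 * (t : ℝ))) = 1 / (t : ℝ) := by field_simp
    linarith
  obtain ⟨K₁, hK₁, HI⟩ := isoG S.card (J + 1) (by omega) β' hβ'0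
  obtain ⟨K₂, hK₂, X₂, HU⟩ := rough_lin S.card 1 (by omega) (1 / 2) (by norm_num) β' hβ'0
  obtain ⟨m, hm⟩ : ∃ m : ℕ, m = 2 * J + 1 := ⟨_, rfl⟩
  have hm0 : (0 : ℝ) < m := by rw [hm]; positivity
  obtain ⟨ε, hε⟩ : ∃ ε : ℝ, ε = κ / (4 * m * K₁ * CV) := ⟨_, rfl⟩
  have hε0 : 0 < ε := by rw [hε]; positivity
  obtain ⟨X₃, HI⟩ := HI ε hε0 (y + 1)
  refine ⟨ε, 2 * K₂ * CV, hε0, by positivity, fun l r δ hl hδ => ?_⟩
  -- the progressions
  obtain ⟨R, hR⟩ : ∃ R : ℕ, R = r * S.powerset.card := ⟨_, rfl⟩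
  obtain ⟨C, X₄, HP⟩ := prog_dense S.card (2 * t) (by omega) l (2 / 3) (δ / (2 * CV * (R + 1))) (κ / (2 * K₀))
    (by norm_num) (by positivity) (by positivity)
  have h3X : Tendsto (fun X : ℕ => 3 * X) atTop atTop :=
    tendsto_atTop_mono (fun n => by show n ≤ 3 * n; omega) tendsto_id
  have hlog2 : ∀ᶠ X : ℕ in atTop, (2 : ℝ) ≤ Real.log X :=
    (Real.tendsto_log_atTop.comp tendsto_natCast_atTop_atTop).eventually_ge_atTop _
  obtain ⟨X₅, H5⟩ := eventually_atTop.1 (((tendsto_natCast_atTop_atTop.eventually HB).and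
    (tendsto_natCast_atTop_atTop.eventually HF)).and ((h3X.eventually hup).and hlog2))
  refine ⟨2 * C, X₁ + X₂ + X₃ + X₄ + X₅ + 3, fun X hX => ?_⟩
  obtain ⟨⟨HB, HF⟩, HV, hlog2⟩ := H5 X (by omega)
  have hXn : 3 ≤ X := by omega
  have hX3 : (3 : ℝ) ≤ X := by exact_mod_cast hXn
  have hX1 : (1 : ℝ) ≤ X := by linarith
  have hX0 : (0 : ℝ) < X := by linarith
  have hlog : 0 < Real.log X := by linarith
  have hlogk : 0 < Real.log X ^ S.card := pow_pos hlog _
  have hcast : ((3 * X : ℕ) : ℝ) = 3 * (X : ℝ) := by push_cast; ring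
  have hBA : ((3 * X : ℕ) : ℝ) - (X : ℝ) = 2 * X := by rw [hcast]; ring
  have hlog3 : Real.log X ≤ Real.log ((3 * X : ℕ) : ℝ) := by
    rw [hcast]
    exact Real.log_le_log hX0 (by linarith)
  have hlog3' : Real.log ((3 * X : ℕ) : ℝ) ≤ 2 * Real.log X := by
    rw [hcast]
    have h1 : (3 : ℝ) * X ≤ X ^ 2 := by nlinarith
    have h2 := Real.log_le_log (by positivity) h1
    rw [Real.log_pow] at h2
    exact_mod_cast h2
  have hlogk3 : Real.log X ^ S.card ≤ Real.log ((3 * X : ℕ) : ℝ) ^ S.card := pow_le_pow_left₀ hlog.le hlog3 _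
  have hpow : ((3 * X : ℕ) : ℝ) ^ β' ≤ (X : ℝ) ^ (2 * β') := by
    rw [hcast]
    calc (3 * (X : ℝ)) ^ β' ≤ ((X : ℝ) ^ (2 : ℝ)) ^ β' := by
          apply Real.rpow_le_rpow (by positivity) _ hβ'0.le
          rw [show (2 : ℝ) = ((2 : ℕ) : ℝ) by norm_num, Real.rpow_natCast]
          nlinarith
      _ = (X : ℝ) ^ (2 * β') := by rw [← Real.rpow_mul hX0.le]
  have hpow1 : ((3 * X : ℕ) : ℝ) ^ β' ≤ (X : ℝ) ^ β := hpow.trans (Real.rpow_le_rpow_of_exponent_le hX1 hβ'1)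
  have hpow2 : ((3 * X : ℕ) : ℝ) ^ β' ≤ (X : ℝ) ^ (1 / (t : ℝ)) :=
    hpow.trans (Real.rpow_le_rpow_of_exponent_le hX1 hβ'2)
  have hpow3 : ((3 * X : ℕ) : ℝ) ^ (1 / (2 * (t : ℝ))) ≤ (X : ℝ) ^ (1 / (t : ℝ)) := by
    rw [hcast]
    calc (3 * (X : ℝ)) ^ (1 / (2 * (t : ℝ))) ≤ ((X : ℝ) ^ (2 : ℝ)) ^ (1 / (2 * (t : ℝ))) := by
          apply Real.rpow_le_rpow (by positivity) _ (by positivity)
          rw [show (2 : ℝ) = ((2 : ℕ) : ℝ) by norm_num, Real.rpow_natCast]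
          nlinarith
      _ = (X : ℝ) ^ (1 / (t : ℝ)) := by
          rw [← Real.rpow_mul hX0.le]
          congr 1
          field_simp
  have hhalf : ((3 * X : ℕ) : ℝ) ^ (1 / 2 : ℝ) ≤ ((3 * X : ℕ) : ℝ) - (X : ℝ) := by
    rw [hBA, hcast, ← Real.sqrt_eq_rpow]
    rw [Real.sqrt_le_left (by positivity)]
    nlinarith
  -- the good arguments without the isolation
  obtain ⟨w, hw⟩ : ∃ w : ℝ, w = ε * Real.log X := ⟨_, rfl⟩
  obtain ⟨v, hv⟩ : ∃ v : ℝ, v = (X : ℝ) ^ β := ⟨_, rfl⟩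
  obtain ⟨b, hb⟩ : ∃ b : ℝ, b = c * Real.log S.card := ⟨_, rfl⟩
  rw [← hw, ← hv, ← hb]
  obtain ⟨G0, hG0⟩ : ∃ G0 : Finset ℕ, G0 = (Ioc X (3 * X)).filter (fun n : ℕ =>
    (∀ s ∈ S, AlmostPrime t ((X : ℝ) ^ (1 / (t : ℝ))) (n + s)) ∧
    b ≤ ((S.filter (fun s => (n + s).Prime)).card : ℝ)) := ⟨_, rfl⟩
  have hG0c : κ * X / Real.log X ^ S.card ≤ (G0.card : ℝ) := by
    refine HB.trans ?_
    rw [← hb]
    have hsub : (Icc 1 ⌊3 * (X : ℝ)⌋₊).filter (fun m : ℕ => (X : ℝ) < m ∧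
        (∀ p : ℕ, p.Prime → p ≤ y → m ≡ a p [MOD p]) ∧
        (∀ s ∈ S, ∀ p : ℕ, p.Prime → p ∣ m + s → (X : ℝ) ^ δ₀ < p) ∧
        b ≤ ((S.filter (fun s => (m + s).Prime)).card : ℝ)) ⊆ G0 := by
      intro n hn
      rw [mem_filter, mem_Icc] at hn
      obtain ⟨⟨g1, g2⟩, g3, _, g5, g6⟩ := hn
      rw [← hcast, Nat.floor_natCast] at g2
      rw [hG0, mem_filter, mem_Ioc]
      refine ⟨⟨by exact_mod_cast g3, g2⟩, fun s hs => ?_, g6⟩
      have g7 : (n : ℝ) ≤ 3 * X := by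
        rw [← hcast]
        exact_mod_cast g2
      have g8 := HF n s (hSy s hs).le (by omega) g7 (g5 s hs)
      have g9 : X < n := by exact_mod_cast g3
      refine ⟨by omega, by omega, fun q hq hqd => ?_⟩
      exact lt_of_le_of_lt (Real.rpow_le_rpow_of_exponent_le hX1 htδ) (g5 s hs q hq hqd)
    exact Nat.cast_le.2 (card_le_card hsub)
  have hGsub : Good S b t J X w v ⊆ G0 := by
    intro n hn
    unfold Good at hn
    rw [mem_filter] at hn
    rw [hG0, mem_filter]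
    exact ⟨hn.1, hn.2.1, hn.2.2.1⟩
  have hrough : ∀ n ∈ G0, ∀ l : Fin S.card, ∀ p : ℕ, p.Prime → (p : ℝ) ≤ (X : ℝ) ^ (1 / (t : ℝ)) →
      ¬ (p : ℤ) ∣ 1 * (n : ℤ) + sh S l := by
    intro n hn l p hp hpy hd
    rw [hG0, mem_filter] at hn
    obtain ⟨s, hs, he⟩ := hfv n l
    rw [he] at hd
    have := (hn.2.1 s hs).2.2 p hp (Int.natCast_dvd_natCast.1 hd)
    linarith
  have hVL0 := VL_nonneg (fun _ : Fin S.card => (1 : ℤ)) (sh S) (3 * X)
  have hVup : VL (fun _ : Fin S.card => (1 : ℤ)) (sh S) (3 * X) ≤ CV / Real.log X ^ S.card :=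
    HV.trans (div_le_div_of_nonneg_left hCV.le hlogk hlogk3)
  -- the lower bound of the product
  have hVlow : κ / (2 * K₀) / Real.log ((3 * X : ℕ) : ℝ) ^ S.card ≤
      VL (fun _ : Fin S.card => (1 : ℤ)) (sh S) (3 * X) := by
    have e1 := HU0 (3 * X) (by omega) (fun _ : Fin S.card => (1 : ℤ)) (sh S) (fun _ => one_ne_zero)
      (fun _ => by simp) X (3 * X) le_rfl hhalf
    have e2 : (G0.card : ℝ) ≤ ((RL (fun _ : Fin S.card => (1 : ℤ)) (sh S)
        (((3 * X : ℕ) : ℝ) ^ (1 / (2 * (t : ℝ)))) X (3 * X)).card : ℝ) := by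
      have : G0 ⊆ RL (fun _ : Fin S.card => (1 : ℤ)) (sh S) (((3 * X : ℕ) : ℝ) ^ (1 / (2 * (t : ℝ)))) X (3 * X) := by
        intro n hn
        unfold RL
        rw [mem_filter]
        refine ⟨?_, fun l p hp hpy => hrough n hn l p hp (hpy.trans hpow3)⟩
        rw [hG0, mem_filter] at hn
        exact hn.1
      exact_mod_cast card_le_card this
    rw [hBA] at e1
    have e3 := hG0c.trans (e2.trans e1)
    have e4 : κ / Real.log X ^ S.card ≤ 2 * K₀ * VL (fun _ : Fin S.card => (1 : ℤ)) (sh S) (3 * X) := by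
      have h1 : κ * X / Real.log X ^ S.card = X * (κ / Real.log X ^ S.card) := by ring
      have h2 : K₀ * (2 * X) * VL (fun _ : Fin S.card => (1 : ℤ)) (sh S) (3 * X) =
        X * (2 * K₀ * VL (fun _ : Fin S.card => (1 : ℤ)) (sh S) (3 * X)) := by ring
      rw [h1, h2] at e3
      exact le_of_mul_le_mul_left e3 hX0
    calc κ / (2 * K₀) / Real.log ((3 * X : ℕ) : ℝ) ^ S.card ≤ κ / (2 * K₀) / Real.log X ^ S.card :=
          div_le_div_of_nonneg_left (by positivity) hlogk hlogk3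
      _ = (κ / Real.log X ^ S.card) / (2 * K₀) := by ring
      _ ≤ (2 * K₀ * VL (fun _ : Fin S.card => (1 : ℤ)) (sh S) (3 * X)) / (2 * K₀) := by gcongr
      _ = VL (fun _ : Fin S.card => (1 : ℤ)) (sh S) (3 * X) := by field_simp
  -- the arguments which are not isolated
  have hbad : (((G0 \ Good S b t J X w v).card : ℕ) : ℝ) ≤ κ / 2 * X / Real.log X ^ S.card := by
    obtain ⟨F, hF⟩ : ∃ F : Finset (ℤ × ℤ), F = ((Icc (-(J : ℤ)) J).erase 0).image (fun j => (j, (0 : ℤ))) := ⟨_, rfl⟩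
    have hFm : ∀ f ∈ F, f.1 ≠ 0 ∧ |f.1| ≤ ((J + 1 : ℕ) : ℤ) ∧ |f.2| ≤ ((y + 1 : ℕ) : ℤ) * ((3 * X : ℕ) : ℤ) := by
      intro f hf
      rw [hF, mem_image] at hf
      obtain ⟨j, hj, rfl⟩ := hf
      rw [mem_erase, mem_Icc] at hj
      refine ⟨hj.1, ?_, ?_⟩
      · have := abs_le.2 hj.2
        push_cast
        linarith
      · simp only [abs_zero]
        positivity
    have hFc : (F.card : ℝ) ≤ m := by
      have h1 : F.card ≤ m := by
        rw [hF]
        refine card_image_le.trans ((card_erase_le).trans ?_)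
        rw [Int.card_Icc, hm]
        omega
      exact_mod_cast h1
    have e1 := HI (3 * X) (by omega) (fun _ : Fin S.card => (1 : ℤ)) (sh S) (fun _ => one_ne_zero)
      (fun _ => by push_cast; simp) (fun i => by
        obtain ⟨s, hs, he⟩ := sh_mem S i
        rw [he, Nat.abs_cast]
        have h1 := hSy s hs
        have h2 : (s : ℤ) ≤ ((y + 1 : ℕ) : ℤ) := by exact_mod_cast (by omega : s ≤ y + 1)
        have h3 : (1 : ℤ) ≤ ((3 * X : ℕ) : ℤ) := by exact_mod_cast (by omega : 1 ≤ 3 * X)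
        nlinarith [Int.natCast_nonneg (y + 1)]) F hFm X (3 * X) le_rfl hhalf
    have e2 : G0 \ Good S b t J X w v ⊆ BadF (fun _ : Fin S.card => (1 : ℤ)) (sh S) F
        (ε * Real.log ((3 * X : ℕ) : ℝ)) (((3 * X : ℕ) : ℝ) ^ β') X (3 * X) := by
      intro n hn
      rw [Finset.mem_sdiff] at hn
      obtain ⟨hn1, hn2⟩ := hn
      have hn0 := hn1
      rw [hG0, mem_filter] at hn1
      have hn3 : ¬ ∀ j z : ℤ, j ≠ 0 → |j| ≤ J → |(z : ℝ) - j * n| ≤ w → (∀ s ∈ S, z ≠ n + s ∧ z ≠ -(n + s)) →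
          ∃ q : ℕ, q.Prime ∧ (q : ℝ) ≤ v ∧ (q : ℤ) ∣ z := by
        intro hcon
        apply hn2
        unfold Good
        rw [mem_filter]
        exact ⟨hn1.1, hn1.2.1, hn1.2.2, hcon⟩
      push Not at hn3
      obtain ⟨j, z, z1, z2, z3, z4, z5⟩ := hn3
      unfold BadF
      rw [mem_filter]
      refine ⟨?_, (j, 0), ?_, z, ?_, fun l => ?_, fun q hq hqy => z5 q hq (hqy.trans (hpow1.trans (le_of_eq hv.symm)))⟩
      · unfold RL
        rw [mem_filter]
        exact ⟨hn1.1, fun l p hp hpy => hrough n hn0 l p hp (hpy.trans hpow2)⟩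
      · rw [hF, mem_image]
        exact ⟨j, mem_erase.2 ⟨z1, mem_Icc.2 (abs_le.1 z2)⟩, rfl⟩
      · push_cast
        rw [add_zero]
        refine z3.trans ?_
        rw [hw, ← hcast]
        exact mul_le_mul_of_nonneg_left hlog3 hε0.le
      · obtain ⟨s, hs, he⟩ := sh_mem S l
        rw [he, one_mul]
        exact z4 s hs
    have e3 : (((G0 \ Good S b t J X w v).card : ℕ) : ℝ) ≤ ((BadF (fun _ : Fin S.card => (1 : ℤ)) (sh S) F
        (ε * Real.log ((3 * X : ℕ) : ℝ)) (((3 * X : ℕ) : ℝ) ^ β') X (3 * X)).card : ℝ) := by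
      exact_mod_cast card_le_card e2
    refine e3.trans (e1.trans ?_)
    rw [hBA]
    calc (F.card : ℝ) * (K₁ * ε * (2 * X) * VL (fun _ : Fin S.card => (1 : ℤ)) (sh S) (3 * X))
        ≤ m * (K₁ * ε * (2 * X) * (CV / Real.log X ^ S.card)) := by gcongr
      _ = κ / 2 * X / Real.log X ^ S.card := by
          rw [hε]
          field_simp
          ring
  refine ⟨?_, ?_, fun χ => ?_⟩
  · have e1 : ((G0.card : ℕ) : ℝ) = (G0 \ Good S b t J X w v).card + (Good S b t J X w v).card := by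
      exact_mod_cast (card_sdiff_add_card_eq_card hGsub).symm
    have e2 : κ * X / Real.log X ^ S.card = κ / 2 * X / Real.log X ^ S.card + κ / 2 * X / Real.log X ^ S.card := by
      ring
    linarith
  · have e1 := HU (3 * X) (by omega) (fun _ : Fin S.card => (1 : ℤ)) (sh S) (fun _ => one_ne_zero)
      (fun _ => by simp) X (3 * X) le_rfl hhalf
    have e2 : ((Rough S X v).card : ℝ) ≤ ((RL (fun _ : Fin S.card => (1 : ℤ)) (sh S)
        (((3 * X : ℕ) : ℝ) ^ β') X (3 * X)).card : ℝ) := by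
      have : Rough S X v ⊆ RL (fun _ : Fin S.card => (1 : ℤ)) (sh S) (((3 * X : ℕ) : ℝ) ^ β') X (3 * X) := by
        intro n hn
        unfold Rough at hn
        unfold RL
        rw [mem_filter] at hn ⊢
        refine ⟨hn.1, fun l p hp hpy hd => ?_⟩
        obtain ⟨s, hs, he⟩ := hfv n l
        rw [he] at hd
        exact hn.2 s hs p hp (hpy.trans (hpow1.trans (le_of_eq hv.symm))) (Int.natCast_dvd_natCast.1 hd)
      exact_mod_cast card_le_card this
    refine e2.trans (e1.trans ?_)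
    rw [hBA]
    calc K₂ * (2 * X) * VL (fun _ : Fin S.card => (1 : ℤ)) (sh S) (3 * X)
        ≤ K₂ * (2 * X) * (CV / Real.log X ^ S.card) := by gcongr
      _ = 2 * K₂ * CV * X / Real.log X ^ S.card := by ring
  · -- the colouring with the positions of the primes
    obtain ⟨χ', hχ'⟩ : ∃ χ' : ℕ → Fin R, ∀ n m : ℕ, χ' n = χ' m → χ n = χ m ∧
        ∀ s ∈ S, (n + s).Prime ↔ (m + s).Prime := by
      rw [hR]
      refine ⟨fun n => finProdFinEquiv (χ n, S.powerset.equivFin ⟨S.filter (fun s => (n + s).Prime),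
        mem_powerset.2 (filter_subset _ _)⟩), fun n m he => ?_⟩
      have he' := finProdFinEquiv.injective he
      rw [Prod.mk.injEq] at he'
      refine ⟨he'.1, fun s hs => ?_⟩
      have he2 := Subtype.ext_iff.1 (S.powerset.equivFin.injective he'.2)
      simp only at he2
      have he3 := Finset.ext_iff.1 he2 s
      rw [mem_filter, mem_filter] at he3
      constructor
      · intro h
        exact (he3.1 ⟨hs, h⟩).2
      · intro h
        exact (he3.2 ⟨hs, h⟩).2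
    obtain ⟨P, p1, p2, p3⟩ := part_col l R hl (Real.log ((3 * X : ℕ) : ℝ) ^ C)
      (δ * X / ((R + 1) * Real.log X ^ S.card)) (by positivity) (Good S b t J X w v) (by
        intro T hT hTc
        have hdeg : ∀ i : Fin S.card, (lf (fun _ => (1 : ℤ)) (sh S) i).natDegree = 1 :=
          fun i => lf_deg _ _ i one_ne_zero
        refine HP (3 * X) (by omega) S.card (lf (fun _ => (1 : ℤ)) (sh S)) (by
          simp only [hdeg]
          simp) (loc_lf hshadm) (by
          rw [V_lf]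
          exact hVlow) X (3 * X) le_rfl (by rw [hBA, hcast]; linarith) T ?_ ?_ (by
          rw [V_lf, hBA]
          refine le_trans ?_ hTc
          calc δ / (2 * CV * (R + 1)) * (2 * X) * VL (fun _ : Fin S.card => (1 : ℤ)) (sh S) (3 * X)
              ≤ δ / (2 * CV * (R + 1)) * (2 * X) * (CV / Real.log X ^ S.card) := by gcongr
            _ = δ * X / ((R + 1) * Real.log X ^ S.card) := by field_simp)
        · intro n hn
          have := hT hn
          unfold Good at this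
          rw [mem_filter] at this
          exact this.1
        · intro n hn _ i q hq hd
          have h5 := hGsub (hT hn)
          rw [lf_eval] at hd
          by_contra hcon
          push Not at hcon
          refine hrough n h5 i q hq (hcon.trans ?_) hd
          have h6 : (((2 * t : ℕ) : ℕ) : ℝ) = 2 * (t : ℝ) := by push_cast; ring
          rw [h6]
          exact hpow3) χ'
    refine ⟨P, fun z hz => ?_, p2, p3.le.trans ?_⟩
    · obtain ⟨q1, q2, q3⟩ := p1 z hz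
      refine ⟨q1, q2.trans ?_, fun i hi => ?_⟩
      · calc Real.log ((3 * X : ℕ) : ℝ) ^ C ≤ (Real.log X ^ 2) ^ C := by
              apply pow_le_pow_left₀ (hlog.le.trans hlog3)
              refine hlog3'.trans ?_
              nlinarith
          _ = Real.log X ^ (2 * C) := by rw [← pow_mul]
      · obtain ⟨q4, q5⟩ := q3 i hi
        obtain ⟨q6, q7⟩ := hχ' _ _ q5
        exact ⟨q4, q6, q7⟩
    · have h1 : (R : ℝ) * (δ * X / ((R + 1) * Real.log X ^ S.card)) =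
        (R / (R + 1)) * (δ * X / Real.log X ^ S.card) := by
        field_simp
      rw [h1]
      apply mul_le_of_le_one_left (by positivity)
      rw [div_le_one (by positivity)]
      linarith

/-- **Main theorem.** -/
theorem result : ∃ (c : ℝ) (n₀ : ℕ), 0 < c ∧ ∀ S : Finset ℕ, n₀ ≤ S.card → Admissible S →
    ∃ t : ℕ, 1 ≤ t ∧ ∃ κ : ℝ, 0 < κ ∧ ∀ (β : ℝ) (J : ℕ), 0 < β → ∃ ε K : ℝ, 0 < ε ∧ 0 < K ∧
      ∀ (l r : ℕ) (δ : ℝ), 1 ≤ l → 0 < δ → ∃ C X₀ : ℕ, ∀ X : ℕ, X₀ ≤ X →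
        κ * X / Real.log X ^ S.card ≤
          ((Good S (c * Real.log S.card) t J X (ε * Real.log X) ((X : ℝ) ^ β)).card : ℝ) ∧
        ((Rough S X ((X : ℝ) ^ β)).card : ℝ) ≤ K * X / Real.log X ^ S.card ∧
        ∀ χ : ℕ → Fin r, ∃ P : Finset (ℕ × ℕ),
          (∀ z ∈ P, 1 ≤ z.2 ∧ (z.2 : ℝ) ≤ Real.log X ^ C ∧ ∀ i < l,
            z.1 + i * z.2 ∈ Good S (c * Real.log S.card) t J X (ε * Real.log X) ((X : ℝ) ^ β) ∧
            χ (z.1 + i * z.2) = χ z.1 ∧ ∀ s ∈ S, (z.1 + i * z.2 + s).Prime ↔ (z.1 + s).Prime) ∧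
          (P : Set (ℕ × ℕ)).PairwiseDisjoint (terms l) ∧
          (((Good S (c * Real.log S.card) t J X (ε * Real.log X) ((X : ℝ) ^ β) \
            P.biUnion (terms l)).card : ℕ) : ℝ) ≤ δ * X / Real.log X ^ S.card :=
  main

end Pool.Agent.Results.MP_3efbeb_nt.IsolatedClusters
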