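import Pool.Agent.T6.H2.FR.Iso
import Pool.Agent.T6.H2.PR.Cls

set_option autoImplicit false

/-!
# Every integer as a difference or sum of members of two isolated quadruples (helper2)

Let `σ = ± 1`. If neither `n, n + 2, n + 6, n + 8` nor `n', n' + 2, n' + 6, n' + 8`, where `n' = M + σ n`, has a member
divisible by `2`, `3`, `5` or `7`, then `M` satisfies an explicit condition modulo `210` (`Loc`). Conversely, for all
large `X` and ALL the integers `M` with `|M| ≤ X ^ a` which satisfy this condition the numbers `n` in any window of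
length `≥ θ X` in `(0, X]`, for which one given member of the quadruple of `n` is a prime, another given one a product of
at most two primes, all the members of both quadruples are products of a bounded number of large primes, and all the
other integers near them have a small prime factor, have the expected order of magnitude; almost all of them are covered
by narrow arithmetic progressions of such numbers of one colour.
-/

namespace Pool.Agent.Results.MP_3efbeb_nt.QuadrupleDifferences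

open Finset Filter
open Pool.Agent.X32.Uni Pool.Agent.T6.H2.PT Pool.Agent.T6.H2.FR

/-- `|v| > 1`, and `|v|` is a product of at most `r` primes, all of them larger than `y` -/
def AlmostPrime (r : ℕ) (y : ℝ) (v : ℤ) : Prop :=
  1 < |v| ∧ v.natAbs.primeFactorsList.length ≤ r ∧ ∀ p : ℕ, p.Prime → (p : ℤ) ∣ v → y < p

/-- the shifts -/
def h : Fin 4 → ℤ := ![0, 2, 6, 8]

/-- the numbers `n, n + 2, n + 6, n + 8` and `n', n' + 2, n' + 6, n' + 8` for `n' = M + σ n` -/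
def vals (σ M : ℤ) (n : ℕ) : Set ℤ := {v | (∃ l, v = n + h l) ∨ ∃ l, v = (M + σ * n) + h l}

/-- the condition modulo `210` -/
def Loc (σ M : ℤ) : Prop :=
  (σ = 1 ∧ M % 30 = 0 ∧ M % 7 ≠ 3 ∧ M % 7 ≠ 4) ∨ (σ = -1 ∧ M % 30 = 22 ∧ M % 7 ≠ 2 ∧ M % 7 ≠ 3)

/-- all the integers `z` at distance at most `w` of one of the numbers `vals σ M n`, except for the numbers `± v`, `v`
one of them, have a prime factor `≤ y` -/
def Isolated (σ M : ℤ) (w y : ℝ) (n : ℕ) : Prop :=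
  ∀ v ∈ vals σ M n, ∀ z : ℤ, |(z : ℝ) - v| ≤ w → (∀ v' ∈ vals σ M n, z ≠ v' ∧ z ≠ -v') →
    ∃ q : ℕ, q.Prime ∧ (q : ℝ) ≤ y ∧ (q : ℤ) ∣ z

open Classical in
/-- the `n` in `(A, B]` such that `n + h_i` is a prime, `n + h_j` a product of at most two primes `> X ^ (1/9)`, all the
numbers `vals σ M n` are products of at most `T` primes `> X ^ (1/t)`, and `n` is isolated -/
noncomputable def Good (σ M : ℤ) (i j : Fin 4) (t T X : ℕ) (w y : ℝ) (A B : ℕ) : Finset ℕ :=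
  (Ioc A B).filter (fun n : ℕ => ((n : ℤ) + h i).natAbs.Prime ∧ AlmostPrime 2 ((X : ℝ) ^ (1 / 9 : ℝ)) (n + h j) ∧
    (∀ v ∈ vals σ M n, AlmostPrime T ((X : ℝ) ^ (1 / (t : ℝ))) v) ∧ Isolated σ M w y n)

open Classical in
/-- the `n` in `(A, B]` such that none of the numbers `vals σ M n` has a prime factor `≤ y` -/
noncomputable def Rough (σ M : ℤ) (y : ℝ) (A B : ℕ) : Finset ℕ :=
  (Ioc A B).filter (fun n : ℕ => ∀ v ∈ vals σ M n, ∀ q : ℕ, q.Prime → (q : ℝ) ≤ y → ¬ (q : ℤ) ∣ v)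

open Classical in
/-- the number of the `n` modulo `p` for which `p` divides one of the numbers `vals σ M n` -/
noncomputable def nu (σ M : ℤ) (p : ℕ) : ℕ := ((range p).filter (fun n : ℕ => ∃ v ∈ vals σ M n, (p : ℤ) ∣ v)).card

/-- the product of the `1 - nu / p` over the primes `p ≤ X` -/
noncomputable def V (σ M : ℤ) (X : ℕ) : ℝ := ∏ p ∈ (Icc 1 X).filter Nat.Prime, (1 - (nu σ M p : ℝ) / p)

/-- the terms `a, a + b, ..., a + (s - 1) b` of the progression `z = (a, b)` -/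
def terms (s : ℕ) (z : ℕ × ℕ) : Finset ℕ := (range s).image (fun i => z.1 + i * z.2)

/-- the slopes and the constant terms -/
def sl (σ : ℤ) : Fin (4 + 4) → ℤ := Fin.append (fun _ : Fin 4 => 1) (fun _ : Fin 4 => σ)
def co (M : ℤ) : Fin (4 + 4) → ℤ := Fin.append h (fun l => M + h l)

theorem sl_l (σ : ℤ) (l : Fin 4) : sl σ (Fin.castAdd 4 l) = 1 := by
  unfold sl
  rw [Fin.append_left]

theorem sl_r (σ : ℤ) (l : Fin 4) : sl σ (Fin.natAdd 4 l) = σ := by
  unfold sl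
  rw [Fin.append_right]

theorem co_l (M : ℤ) (l : Fin 4) : co M (Fin.castAdd 4 l) = h l := by
  unfold co
  rw [Fin.append_left]

theorem co_r (M : ℤ) (l : Fin 4) : co M (Fin.natAdd 4 l) = M + h l := by
  unfold co
  rw [Fin.append_right]

theorem idx_cases (P : Fin (4 + 4) → Prop) (h1 : ∀ l : Fin 4, P (Fin.castAdd 4 l))
    (h2 : ∀ l : Fin 4, P (Fin.natAdd 4 l)) (l : Fin (4 + 4)) : P l := Fin.addCases h1 h2 l

theorem vals_iff (σ M : ℤ) (n : ℕ) (v : ℤ) : v ∈ vals σ M n ↔ ∃ l, v = sl σ l * (n : ℤ) + co M l := by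
  unfold vals
  rw [Set.mem_ofPred_eq]
  constructor
  · rintro (⟨l, e⟩ | ⟨l, e⟩)
    · exact ⟨Fin.castAdd 4 l, by rw [e, sl_l, co_l]; ring⟩
    · exact ⟨Fin.natAdd 4 l, by rw [e, sl_r, co_r]; ring⟩
  · rintro ⟨l, e⟩
    revert e
    refine idx_cases (fun l => v = sl σ l * (n : ℤ) + co M l → _) (fun l e => ?_) (fun l e => ?_) l
    · exact Or.inl ⟨l, by rw [e, sl_l, co_l]; ring⟩
    · exact Or.inr ⟨l, by rw [e, sl_r, co_r]; ring⟩

theorem good_eq (σ M : ℤ) (i j : Fin 4) (t T X : ℕ) (w y : ℝ) (A B : ℕ) :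
    Good σ M i j t T X w y A B = GoodFI (sl σ) (co M) (Fin.castAdd 4 i) (Fin.castAdd 4 j) t T X w y A B := by
  classical
  unfold Good GoodFI GoodF
  rw [filter_filter]
  apply filter_congr
  intro n _
  rw [sl_l, co_l, sl_l, co_l, one_mul]
  constructor
  · rintro ⟨h1, h2, h3, h4⟩
    refine ⟨⟨h1, h2, fun l => h3 _ ((vals_iff σ M n _).2 ⟨l, rfl⟩)⟩, ?_⟩
    intro l z hz1 hz2
    refine h4 _ ((vals_iff σ M n _).2 ⟨l, rfl⟩) z hz1 (fun v' hv' => ?_)
    obtain ⟨l', rfl⟩ := (vals_iff σ M n _).1 hv'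
    exact hz2 l'
  · rintro ⟨⟨h1, h2, h3⟩, h4⟩
    refine ⟨h1, h2, fun v hv => ?_, fun v hv z hz1 hz2 => ?_⟩
    · obtain ⟨l, rfl⟩ := (vals_iff σ M n _).1 hv
      exact h3 l
    · obtain ⟨l, rfl⟩ := (vals_iff σ M n _).1 hv
      exact h4 l z hz1 (fun l' => hz2 _ ((vals_iff σ M n _).2 ⟨l', rfl⟩))

theorem rough_eq (σ M : ℤ) (y : ℝ) (A B : ℕ) : Rough σ M y A B = RL (sl σ) (co M) y A B := by
  classical
  unfold Rough RL
  apply filter_congr
  intro n _
  constructor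
  · intro h l
    exact h _ ((vals_iff σ M n _).2 ⟨l, rfl⟩)
  · intro h v hv
    obtain ⟨l, rfl⟩ := (vals_iff σ M n _).1 hv
    exact h l

theorem V_eq (σ M : ℤ) (X : ℕ) : V σ M X = VL (sl σ) (co M) X := by
  classical
  unfold V VL
  apply prod_congr rfl
  intro p hp
  have hpp := (mem_filter.1 hp).2
  have : nu σ M p = omL (sl σ) (co M) p := by
    unfold nu omL
    congr 1
    apply filter_congr
    intro n _
    constructor
    · rintro ⟨v, hv, hd⟩
      obtain ⟨l, rfl⟩ := (vals_iff σ M n _).1 hv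
      exact hd.trans (dvd_prod_of_mem (fun l => sl σ l * (n : ℤ) + co M l) (mem_univ l))
    · intro h
      obtain ⟨l, _, hl⟩ := (Nat.prime_iff_prime_int.1 hpp).exists_mem_finset_dvd h
      exact ⟨_, (vals_iff σ M n _).2 ⟨l, rfl⟩, hl⟩
  rw [this]

theorem mods (m : ℤ) (e : ∀ l : Fin 4, ¬ 2 ∣ m + h l ∧ ¬ 3 ∣ m + h l ∧ ¬ 5 ∣ m + h l ∧ ¬ 7 ∣ m + h l) :
    m % 2 = 1 ∧ m % 3 = 2 ∧ m % 5 = 1 ∧ (m % 7 = 2 ∨ m % 7 = 3 ∨ m % 7 = 4) := by
  obtain ⟨e2, e3, e5, e7⟩ := e 0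
  obtain ⟨f2, f3, f5, f7⟩ := e 1
  obtain ⟨g2, g3, g5, g7⟩ := e 2
  obtain ⟨k2, k3, k5, k7⟩ := e 3
  rw [show h 0 = 0 from rfl] at e2 e3 e5 e7
  rw [show h 1 = 2 from rfl] at f2 f3 f5 f7
  rw [show h 2 = 6 from rfl] at g2 g3 g5 g7
  rw [show h 3 = 8 from rfl] at k2 k3 k5 k7
  clear e f2 g2 k2 g3 k3
  refine ⟨by omega, ?_, ?_, ?_⟩
  · clear e2 e5 e7 f5 f7 g5 g7 k5 k7
    have q : m % 3 = 0 ∨ m % 3 = 1 ∨ m % 3 = 2 := by omega
    rcases q with q | q | q
    · exact absurd (show (3 : ℤ) ∣ m + 0 by omega) e3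
    · exact absurd (show (3 : ℤ) ∣ m + 2 by omega) f3
    · exact q
  · clear e2 e3 e7 f3 f7 g7 k7
    have q : m % 5 = 0 ∨ m % 5 = 1 ∨ m % 5 = 2 ∨ m % 5 = 3 ∨ m % 5 = 4 := by omega
    rcases q with q | q | q | q | q
    · exact absurd (show (5 : ℤ) ∣ m + 0 by omega) e5
    · exact q
    · exact absurd (show (5 : ℤ) ∣ m + 8 by omega) k5
    · exact absurd (show (5 : ℤ) ∣ m + 2 by omega) f5
    · exact absurd (show (5 : ℤ) ∣ m + 6 by omega) g5
  · clear e2 e3 e5 f3 f5 g5 k5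
    have q : m % 7 = 0 ∨ m % 7 = 1 ∨ m % 7 = 2 ∨ m % 7 = 3 ∨ m % 7 = 4 ∨ m % 7 = 5 ∨ m % 7 = 6 := by omega
    rcases q with q | q | q | q | q | q | q
    · exact absurd (show (7 : ℤ) ∣ m + 0 by omega) e7
    · exact absurd (show (7 : ℤ) ∣ m + 6 by omega) g7
    · exact Or.inl q
    · exact Or.inr (Or.inl q)
    · exact Or.inr (Or.inr q)
    · exact absurd (show (7 : ℤ) ∣ m + 2 by omega) f7
    · exact absurd (show (7 : ℤ) ∣ m + 8 by omega) k7

/-- the condition is necessary -/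
theorem necessary (σ M : ℤ) (hσ : σ = 1 ∨ σ = -1) (n : ℕ)
    (hn : ∀ v ∈ vals σ M n, ¬ 2 ∣ v ∧ ¬ 3 ∣ v ∧ ¬ 5 ∣ v ∧ ¬ 7 ∣ v) : Loc σ M := by
  obtain ⟨g2, g3, g5, g7⟩ := mods (n : ℤ) (fun l => hn _ (Or.inl ⟨l, rfl⟩))
  obtain ⟨m, hm⟩ : ∃ m : ℤ, m = M + σ * n := ⟨_, rfl⟩
  obtain ⟨k2, k3, k5, k7⟩ := mods m (fun l => hn _ (Or.inr ⟨l, by rw [hm]⟩))
  clear hn
  rcases hσ with rfl | rfl
  · left
    have hm' : M = m - n := by rw [hm]; ring
    clear hm
    refine ⟨rfl, ?_, ?_, ?_⟩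
    · have a2 : M % 2 = 0 := by omega
      have a3 : M % 3 = 0 := by omega
      have a5 : M % 5 = 0 := by omega
      omega
    · omega
    · omega
  · right
    have hm' : M = m + n := by rw [hm]; ring
    clear hm
    refine ⟨rfl, ?_, ?_, ?_⟩
    · have a2 : M % 2 = 0 := by omega
      have a3 : M % 3 = 1 := by omega
      have a5 : M % 5 = 2 := by omega
      omega
    · omega
    · omega

/-- the condition is sufficient -/
theorem adm (σ M : ℤ) (hL : Loc σ M) (p : ℕ) (hp : p.Prime) : ∃ x : ℤ, ∀ l, ¬ (p : ℤ) ∣ sl σ l * x + co M l := by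
  have key : ∀ x : ℤ, (∀ l : Fin 4, ¬ (p : ℤ) ∣ x + h l) → (∀ l : Fin 4, ¬ (p : ℤ) ∣ (M + σ * x) + h l) →
      ∀ l, ¬ (p : ℤ) ∣ sl σ l * x + co M l := by
    intro x h1 h2
    refine idx_cases _ (fun l => ?_) (fun l => ?_)
    · rw [sl_l, co_l, one_mul]
      exact h1 l
    · rw [sl_r, co_r, show σ * x + (M + h l) = (M + σ * x) + h l by ring]
      exact h2 l
  have hh : ∀ (x : ℤ), (¬ (p : ℤ) ∣ x + 0 ∧ ¬ (p : ℤ) ∣ x + 2 ∧ ¬ (p : ℤ) ∣ x + 6 ∧ ¬ (p : ℤ) ∣ x + 8) →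
      ∀ l : Fin 4, ¬ (p : ℤ) ∣ x + h l := by
    rintro x ⟨h1, h2, h3, h4⟩ l
    fin_cases l
    · exact h1
    · exact h2
    · exact h3
    · exact h4
  rcases Nat.lt_or_ge 8 p with hlt | hge
  · have h1 : ¬ (p : ℤ) ∣ 1 := fun h => hp.one_lt.ne' (Nat.dvd_one.1 (by exact_mod_cast h))
    refine Pool.Agent.T6.H2.PR.adm_big _ _ p hp (idx_cases _ (fun l => ?_) (fun l => ?_)) hlt
    · rw [sl_l]; exact h1
    · rw [sl_r]
      rcases hL with hL | hL
      · rw [hL.1]; exact h1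
      · rw [hL.1, dvd_neg]; exact h1
  · have hp' : p = 2 ∨ p = 3 ∨ p = 5 ∨ p = 7 := by
      have h2 := hp.two_le
      interval_cases p
      · exact Or.inl rfl
      · exact Or.inr (Or.inl rfl)
      · exact absurd hp (by decide)
      · exact Or.inr (Or.inr (Or.inl rfl))
      · exact absurd hp (by decide)
      · exact Or.inr (Or.inr (Or.inr rfl))
      · exact absurd hp (by decide)
    rcases hp' with rfl | rfl | rfl | rfl
    · refine ⟨1, key 1 (hh _ ?_) (hh _ ?_)⟩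
      · decide
      · push_cast
        rcases hL with ⟨rfl, h1, h2, h3⟩ | ⟨rfl, h1, h2, h3⟩ <;> omega
    · refine ⟨2, key 2 (hh _ ?_) (hh _ ?_)⟩
      · decide
      · push_cast
        rcases hL with ⟨rfl, h1, h2, h3⟩ | ⟨rfl, h1, h2, h3⟩ <;> omega
    · refine ⟨1, key 1 (hh _ ?_) (hh _ ?_)⟩
      · decide
      · push_cast
        rcases hL with ⟨rfl, h1, h2, h3⟩ | ⟨rfl, h1, h2, h3⟩ <;> omega
    · have h7 : ∃ x : ℤ, (x = 2 ∨ x = 3 ∨ x = 4) ∧ ((M + σ * x) % 7 = 2 ∨ (M + σ * x) % 7 = 3 ∨ (M + σ * x) % 7 = 4) := by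
        rcases hL with ⟨rfl, h1, h2, h3⟩ | ⟨rfl, h1, h2, h3⟩
        · have h8 : M % 7 = 0 ∨ M % 7 = 1 ∨ M % 7 = 2 ∨ M % 7 = 5 ∨ M % 7 = 6 := by omega
          rcases h8 with h8 | h8 | h8 | h8 | h8
          · exact ⟨2, by omega, by omega⟩
          · exact ⟨2, by omega, by omega⟩
          · exact ⟨2, by omega, by omega⟩
          · exact ⟨4, by omega, by omega⟩
          · exact ⟨3, by omega, by omega⟩
        · have h8 : M % 7 = 0 ∨ M % 7 = 1 ∨ M % 7 = 4 ∨ M % 7 = 5 ∨ M % 7 = 6 := by omega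
          rcases h8 with h8 | h8 | h8 | h8 | h8
          · exact ⟨3, by omega, by omega⟩
          · exact ⟨4, by omega, by omega⟩
          · exact ⟨2, by omega, by omega⟩
          · exact ⟨2, by omega, by omega⟩
          · exact ⟨3, by omega, by omega⟩
      obtain ⟨x, hx, hx'⟩ := h7
      refine ⟨x, key x (hh _ ?_) (hh _ ?_)⟩
      · push_cast
        omega
      · push_cast
        omega

theorem sys (σ M : ℤ) (i j : Fin 4) (hij : i ≠ j) (a X : ℕ) (hX : 9 ≤ X) (hM : |M| ≤ (X : ℤ) ^ a) (hL : Loc σ M) :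
    SysF (4 + 4) 1 8 (a + 1) X (sl σ) (co M) (Fin.castAdd 4 i) (Fin.castAdd 4 j) := by
  have hX1 : (9 : ℤ) ≤ X := by exact_mod_cast hX
  have hh : ∀ l, 0 ≤ h l ∧ h l ≤ 8 := by
    intro l
    fin_cases l <;> decide
  have hinj : h j ≠ h i := by
    intro he
    apply hij
    revert he
    fin_cases i <;> fin_cases j <;> decide
  have hσ : |σ| = 1 := by
    rcases hL with hL | hL
    · rw [hL.1]; rfl
    · rw [hL.1]; rfl
  have hσ0 : σ ≠ 0 := by
    rintro rfl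
    simp at hσ
  have hXa0 : (1 : ℤ) ≤ (X : ℤ) ^ a := one_le_pow₀ (by linarith)
  have hXa : (X : ℤ) ^ (a + 1) = X ^ a * X := pow_succ _ _
  have hXX : (X : ℤ) ≤ X ^ a * X := by nlinarith
  exact
    { a0 := by
        refine idx_cases _ (fun l => ?_) (fun l => ?_)
        · rw [sl_l]; norm_num
        · rw [sl_r]; exact hσ0
      aE := by rw [sl_l]; norm_num
      aE' := by rw [sl_l]; norm_num
      aK := by
        refine idx_cases _ (fun l => ?_) (fun l => ?_)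
        · rw [sl_l]; norm_num
        · rw [sl_r, hσ]; norm_num
      bi := by
        rw [co_l, abs_of_nonneg (hh i).1]
        have := (hh i).2
        push_cast
        nlinarith
      bj := by
        rw [co_l, abs_of_nonneg (hh j).1]
        have := (hh j).2
        push_cast
        nlinarith
      bX := by
        refine idx_cases _ (fun l => ?_) (fun l => ?_)
        · rw [co_l, abs_of_nonneg (hh l).1, hXa]
          have := (hh l).2
          linarith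
        · rw [co_r, hXa]
          have h1 := (hh l).2
          have h2 := abs_add_le M (h l)
          rw [abs_of_nonneg (hh l).1] at h2
          have h3 : 9 * (X : ℤ) ^ a ≤ X ^ a * X := by nlinarith
          linarith
      adm := by
        intro q hq
        obtain ⟨x, hx⟩ := adm σ M hL q hq
        have hq0 : (0 : ℤ) < q := by exact_mod_cast hq.pos
        obtain ⟨x', hx'⟩ := Int.eq_ofNat_of_zero_le (Int.emod_nonneg x hq0.ne')
        have hd : (q : ℤ) ∣ (x' : ℤ) - x := by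
          have h1 := Int.emod_add_mul_ediv x q
          rw [hx'] at h1
          exact ⟨-(x / q), by linarith⟩
        refine ⟨x', fun l hl => hx l ?_⟩
        have := dvd_sub hl (hd.mul_left (sl σ l))
        have e : sl σ l * (x' : ℤ) + co M l - sl σ l * ((x' : ℤ) - x) = sl σ l * x + co M l := by ring
        rwa [e] at this
      ne := by
        rw [co_l, co_l]
        intro he
        exact hinj (congrArg Prod.snd he)
      ne' := by
        rw [sl_l, sl_l]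
        intro he
        have h1 : (1 : ℤ) = -1 := congrArg Prod.fst he
        omega }

/-- **Every integer as a difference or sum of members of two isolated quadruples.** -/
theorem result :
    (∀ (σ M : ℤ), σ = 1 ∨ σ = -1 → ∀ n : ℕ, (∀ v ∈ vals σ M n, ¬ 2 ∣ v ∧ ¬ 3 ∣ v ∧ ¬ 5 ∣ v ∧ ¬ 7 ∣ v) → Loc σ M) ∧
    ∃ t : ℕ, 1 ≤ t ∧ ∃ κ : ℝ, 0 < κ ∧ ∀ β : ℝ, 0 < β → ∃ ε C : ℝ, 0 < ε ∧ ∀ (a s r : ℕ) (θ δ : ℝ), 1 ≤ s → 0 < θ →
      0 < δ → ∃ c X₀ : ℕ, ∀ (X : ℕ) (σ M : ℤ) (i j : Fin 4), X₀ ≤ X → |M| ≤ (X : ℤ) ^ a → Loc σ M → i ≠ j →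
      κ / Real.log X ^ 8 ≤ V σ M X ∧ ∀ A B : ℕ, B ≤ X → θ * X ≤ (B : ℝ) - A →
        κ * ((B : ℝ) - A) * V σ M X ≤
          ((Good σ M i j t ((a + 3) * t) X (ε * Real.log X) ((X : ℝ) ^ β) A B).card : ℝ) ∧
        ((Rough σ M ((X : ℝ) ^ β) A B).card : ℝ) ≤ C * ((B : ℝ) - A) * V σ M X ∧
        ∀ χ : ℕ → Fin r, ∃ P : Finset (ℕ × ℕ),
          (∀ z ∈ P, 1 ≤ z.2 ∧ (z.2 : ℝ) ≤ Real.log X ^ c ∧
            ∀ m < s, z.1 + m * z.2 ∈ Good σ M i j t ((a + 3) * t) X (ε * Real.log X) ((X : ℝ) ^ β) A B ∧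
              χ (z.1 + m * z.2) = χ z.1) ∧
          (P : Set (ℕ × ℕ)).PairwiseDisjoint (terms s) ∧
          (((Good σ M i j t ((a + 3) * t) X (ε * Real.log X) ((X : ℝ) ^ β) A B \ P.biUnion (terms s)).card : ℕ) : ℝ) ≤
            δ * ((B : ℝ) - A) * V σ M X := by
  classical
  refine ⟨fun σ M hσ n hn => necessary σ M hσ n hn, ?_⟩
  obtain ⟨t, ht, κ, hκ, HF⟩ := farI (4 + 4) 1 (by omega)
  refine ⟨t, ht, κ, hκ, fun β hβ => ?_⟩
  obtain ⟨ε, hε, HF⟩ := HF β 8 hβ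
  obtain ⟨KU, hKU, n₀, HR⟩ := rough_lin (4 + 4) 1 (by omega) (1 / 2) (by norm_num) β hβ
  refine ⟨ε, KU, hε, fun a s r η δ hs hη hδ => ?_⟩
  obtain ⟨c, X₀, HF⟩ := HF (a + 1) s r η δ hs hη hδ
  have h4 : ∀ᶠ X : ℕ in atTop, 1 / η ≤ (X : ℝ) ^ (1 / 2 : ℝ) :=
    ((tendsto_rpow_atTop (by norm_num : (0 : ℝ) < 1 / 2)).comp tendsto_natCast_atTop_atTop).eventually_ge_atTop _
  obtain ⟨X₁, h4⟩ := eventually_atTop.1 h4
  refine ⟨c, X₀ + n₀ + X₁ + 9, fun X σ M i j hX hM hL hij => ?_⟩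
  have S := sys σ M i j hij a X (by omega) hM hL
  obtain ⟨h1, h2⟩ := HF X (by omega) _ _ _ _ S
  rw [V_eq]
  refine ⟨h1, fun A B hB hAB => ?_⟩
  obtain ⟨h3, h5⟩ := h2 A B hB hAB
  rw [good_eq, rough_eq]
  refine ⟨h3, ?_, h5⟩
  refine HR X (by omega) _ _ S.a0 ?_ A B hB ?_
  · refine idx_cases _ (fun l => ?_) (fun l => ?_)
    · rw [sl_l]; norm_num
    · rw [sl_r]
      rcases hL with hL | hL
      · rw [hL.1]; norm_num
      · rw [hL.1]; norm_num
  · have hX0 : (0 : ℝ) < X := by exact_mod_cast (by omega : 0 < X)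
    refine le_trans ?_ hAB
    have e1 := h4 X (by omega)
    have e2 : (X : ℝ) ^ (1 / 2 : ℝ) * (X : ℝ) ^ (1 / 2 : ℝ) = X := by
      rw [← Real.rpow_add hX0]
      norm_num
    have e3 : 0 ≤ (X : ℝ) ^ (1 / 2 : ℝ) := by positivity
    rw [div_le_iff₀ hη] at e1
    calc (X : ℝ) ^ (1 / 2 : ℝ) = (X : ℝ) ^ (1 / 2 : ℝ) * 1 := (mul_one _).symm
      _ ≤ (X : ℝ) ^ (1 / 2 : ℝ) * ((X : ℝ) ^ (1 / 2 : ℝ) * η) := by gcongr
      _ = η * X := by rw [← mul_assoc, e2]; ring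

end Pool.Agent.Results.MP_3efbeb_nt.QuadrupleDifferences
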